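import Pool.Agent.H.MP_656320_nt.VB.At

/-!
# The exponents
-/

namespace Pool.Agent.H.MP_656320_nt.VB

/-- Exponents which depend only on the weight, the prime and the eigenvalue. -/
theorem exists_exponents (l : ℕ) : ∃ E : ℕ → ℂ → ℕ, (∀ p z, 1 ≤ E p z) ∧
    ∀ (N : ℕ) (χ lam : ℕ → ℂ) (a : ℕ → ℝ), Hecke l N χ lam a → ∀ p, Good l N χ lam p →
      Fl a p (E p (lam p)) := by
  have key : ∀ (p : ℕ) (z : ℂ), ∃ j : ℕ, 1 ≤ j ∧ ∀ L : ℝ, p.Prime → z = L →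
      L ^ 2 < 4 * (p : ℝ) ^ (2 * (l : ℤ) - 1) →
      |hh L ((p : ℝ) ^ (2 * (l : ℤ) - 1)) (j + 1)| <
        (p : ℝ) ^ ((l : ℤ) - 1) * |hh L ((p : ℝ) ^ (2 * (l : ℤ) - 1)) j| := by
    intro p z
    by_cases h : p.Prime ∧ z = (z.re : ℂ) ∧ z.re ^ 2 < 4 * (p : ℝ) ^ (2 * (l : ℤ) - 1)
    · obtain ⟨hp, hz, hL⟩ := h
      have hp0 : (0 : ℝ) < p := by exact_mod_cast hp.pos
      obtain ⟨G, hG⟩ := exists_flip (L := z.re) (C := (p : ℝ) ^ (2 * (l : ℤ) - 1))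
        (c := (p : ℝ) ^ ((l : ℤ) - 1)) (zpow_pos hp0 _) hL (zpow_pos hp0 _)
      obtain ⟨j, h1, -, h3⟩ := hG 0
      refine ⟨j, h1, fun L _ hzL _ => ?_⟩
      have h4 : L = z.re := by rw [hzL, Complex.ofReal_re]
      rw [h4]
      exact h3
    · refine ⟨1, le_rfl, fun L hp hzL hL => absurd ⟨hp, ?_, ?_⟩ h⟩
      · rw [hzL, Complex.ofReal_re]
      · rw [hzL, Complex.ofReal_re]
        exact hL
  choose E hE using key
  refine ⟨E, fun p z => (hE p z).1, fun N χ lam a h p hp => ?_⟩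
  obtain ⟨hp1, hp2, hp3, L, hL, hL2⟩ := hp
  exact fl_of_lt h hp1 hp2 hp3 hL ((hE p (lam p)).2 L hp1 hL hL2)

end Pool.Agent.H.MP_656320_nt.VB
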