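import Pool.Agent.H.MP_656320_nt.VB.Def

/-!
# The inequality of Bessel for almost orthogonal functions
-/

namespace Pool.Agent.H.MP_656320_nt.VB

open Finset

private theorem Bs_pair {a b g C : ℝ} (hg : |g| ≤ C) : a * b * g ≤ C * ((a ^ 2 + b ^ 2) / 2) := by
  have h1 : a * b * g ≤ |a * b| * |g| := by
    rw [← abs_mul]
    exact le_abs_self _
  have h2 : |a * b| ≤ (a ^ 2 + b ^ 2) / 2 := by
    rw [abs_le]
    constructor <;> nlinarith [sq_nonneg (a + b), sq_nonneg (a - b)]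
  have h3 : |a * b| * |g| ≤ (a ^ 2 + b ^ 2) / 2 * C :=
    mul_le_mul h2 hg (abs_nonneg _) ((abs_nonneg _).trans h2)
  linarith

theorem bessel {ι : Type} (R : Finset ι) (I : Finset ℕ) (v : ι → ℕ → ℝ) (s : ℕ → ℝ) {D C : ℝ}
    (hD : 0 ≤ D) (hC : 0 ≤ C) (hd : ∀ r ∈ R, ∑ n ∈ I, v r n ^ 2 ≤ D)
    (ho : ∀ r ∈ R, ∀ r' ∈ R, r ≠ r' → |∑ n ∈ I, v r n * v r' n| ≤ C) :
    ∑ r ∈ R, (∑ n ∈ I, s n * v r n) ^ 2 ≤ (∑ n ∈ I, s n ^ 2) * (D + R.card * C) := by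
  classical
  obtain ⟨c, hc⟩ : ∃ c : ι → ℝ, ∀ r, c r = ∑ n ∈ I, s n * v r n := ⟨_, fun _ => rfl⟩
  obtain ⟨S, hS⟩ : ∃ S, S = ∑ r ∈ R, c r ^ 2 := ⟨_, rfl⟩
  have e0 : ∑ r ∈ R, (∑ n ∈ I, s n * v r n) ^ 2 = S := by
    rw [hS]
    exact Finset.sum_congr rfl fun r _ => by rw [hc]
  rw [e0]
  have hS0 : 0 ≤ S := by
    rw [hS]
    exact Finset.sum_nonneg fun r _ => sq_nonneg _
  have hK : 0 ≤ D + R.card * C := by positivity
  have hs0 : 0 ≤ ∑ n ∈ I, s n ^ 2 := Finset.sum_nonneg fun n _ => sq_nonneg _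
  have e1 : S = ∑ n ∈ I, s n * ∑ r ∈ R, c r * v r n := by
    have h1 : ∑ n ∈ I, s n * ∑ r ∈ R, c r * v r n = ∑ r ∈ R, ∑ n ∈ I, c r * (s n * v r n) := by
      rw [Finset.sum_comm]
      refine Finset.sum_congr rfl fun n _ => ?_
      rw [Finset.mul_sum]
      exact Finset.sum_congr rfl fun r _ => by ring
    rw [h1, hS]
    refine Finset.sum_congr rfl fun r _ => ?_
    rw [← Finset.mul_sum, ← hc, sq]
  have e2 : S ^ 2 ≤ (∑ n ∈ I, s n ^ 2) * ∑ n ∈ I, (∑ r ∈ R, c r * v r n) ^ 2 := by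
    conv_lhs => rw [e1]
    exact Finset.sum_mul_sq_le_sq_mul_sq _ _ _
  have e3 : ∑ n ∈ I, (∑ r ∈ R, c r * v r n) ^ 2 =
      ∑ r ∈ R, ∑ r' ∈ R, c r * c r' * ∑ n ∈ I, v r n * v r' n := by
    have h1 : ∀ n ∈ I, (∑ r ∈ R, c r * v r n) ^ 2 =
        ∑ r ∈ R, ∑ r' ∈ R, (c r * v r n) * (c r' * v r' n) := by
      intro n _
      rw [sq, Finset.sum_mul_sum]
    rw [Finset.sum_congr rfl h1, Finset.sum_comm]
    refine Finset.sum_congr rfl fun r _ => ?_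
    rw [Finset.sum_comm]
    refine Finset.sum_congr rfl fun r' _ => ?_
    rw [Finset.mul_sum]
    exact Finset.sum_congr rfl fun n _ => by ring
  have e4 : ∑ r ∈ R, ∑ r' ∈ R, c r * c r' * ∑ n ∈ I, v r n * v r' n ≤
      ∑ r ∈ R, ∑ r' ∈ R, ((if r = r' then D * c r ^ 2 else 0) +
        C * ((c r ^ 2 + c r' ^ 2) / 2)) := by
    refine Finset.sum_le_sum fun r hr => Finset.sum_le_sum fun r' hr' => ?_
    rcases eq_or_ne r r' with h | h
    · subst h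
      rw [if_pos rfl]
      have h1 : ∑ n ∈ I, v r n * v r n = ∑ n ∈ I, v r n ^ 2 :=
        Finset.sum_congr rfl fun n _ => by ring
      rw [h1]
      have h2 := mul_le_mul_of_nonneg_left (hd r hr) (sq_nonneg (c r))
      have h3 : 0 ≤ C * ((c r ^ 2 + c r ^ 2) / 2) := by positivity
      have h4 : c r * c r * ∑ n ∈ I, v r n ^ 2 = c r ^ 2 * ∑ n ∈ I, v r n ^ 2 := by ring
      rw [h4]
      linarith
    · rw [if_neg h, zero_add]
      exact Bs_pair (ho r hr r' hr' h)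
  have e5 : ∑ r ∈ R, ∑ r' ∈ R, ((if r = r' then D * c r ^ 2 else 0) +
        C * ((c r ^ 2 + c r' ^ 2) / 2)) = (D + R.card * C) * S := by
    have h1 : ∀ r ∈ R, ∑ r' ∈ R, ((if r = r' then D * c r ^ 2 else 0) +
        C * ((c r ^ 2 + c r' ^ 2) / 2)) = D * c r ^ 2 + (C * R.card / 2) * c r ^ 2 + C / 2 * S := by
      intro r hr
      rw [Finset.sum_add_distrib, Finset.sum_ite_eq, if_pos hr]
      have h2 : ∑ r' ∈ R, C * ((c r ^ 2 + c r' ^ 2) / 2) =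
          ∑ r' ∈ R, C / 2 * c r ^ 2 + C / 2 * ∑ r' ∈ R, c r' ^ 2 := by
        rw [Finset.mul_sum, ← Finset.sum_add_distrib]
        exact Finset.sum_congr rfl fun r' _ => by ring
      rw [h2, Finset.sum_const, nsmul_eq_mul, ← hS]
      ring
    rw [Finset.sum_congr rfl h1, Finset.sum_add_distrib, Finset.sum_add_distrib,
      ← Finset.mul_sum, ← Finset.mul_sum, ← hS, Finset.sum_const, nsmul_eq_mul]
    ring
  have e6 : S ^ 2 ≤ (∑ n ∈ I, s n ^ 2) * ((D + R.card * C) * S) := by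
    refine e2.trans (mul_le_mul_of_nonneg_left ?_ hs0)
    rw [e3]
    exact e4.trans (le_of_eq e5)
  rcases hS0.eq_or_lt with h | h
  · rw [← h]
    exact mul_nonneg hs0 hK
  · have e7 : S * S ≤ ((∑ n ∈ I, s n ^ 2) * (D + R.card * C)) * S := by
      rw [sq] at e6
      linarith
    exact le_of_mul_le_mul_right e7 h

end Pool.Agent.H.MP_656320_nt.VB
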