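import Pool.Agent.H.MP_656320_nt.VB.Def

/-!
# Counting in the union
-/

namespace Pool.Agent.H.MP_656320_nt.VB

open Finset

open Classical in
private theorem cnt_eq_sum (B : Set ℕ) (x : ℕ) :
    (cnt B x : ℝ) = ∑ n ∈ Ioc 0 x, (if n ∈ B then (1 : ℝ) else 0) := by
  have h1 : {n : ℕ | 1 ≤ n ∧ n ≤ x ∧ n ∈ B} = (((Ioc 0 x).filter (fun n => n ∈ B) : Finset ℕ) : Set ℕ) := by
    ext n
    simp only [Set.mem_ofPred_eq, Finset.coe_filter, Finset.mem_Ioc]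
    constructor
    · rintro ⟨h1, h2, h3⟩
      exact ⟨⟨h1, h2⟩, h3⟩
    · rintro ⟨⟨h1, h2⟩, h3⟩
      exact ⟨h1, h2, h3⟩
  unfold cnt
  rw [h1, Set.ncard_coe_finset, Finset.sum_boole]

open Classical in
/-- The numbers of positive, negative and nonzero values, and the signs. -/
theorem cnt_sg (A : Set ℕ) (a : ℕ → ℝ) (x : ℕ) :
    (cnt {n | n ∈ A ∧ 0 < a n} x : ℝ) - cnt {n | n ∈ A ∧ a n < 0} x =
      ∑ n ∈ Ioc 0 x, (if n ∈ A then sg (a n) else 0) ∧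
    (cnt {n | n ∈ A ∧ a n ≠ 0} x : ℝ) = ∑ n ∈ Ioc 0 x, (if n ∈ A then sg (a n) ^ 2 else 0) := by
  constructor
  · rw [cnt_eq_sum, cnt_eq_sum, ← Finset.sum_sub_distrib]
    refine Finset.sum_congr rfl fun n _ => ?_
    by_cases hA : n ∈ A
    · rcases lt_trichotomy (a n) 0 with h | h | h
      · rw [if_neg (fun h1 : n ∈ {n | n ∈ A ∧ 0 < a n} => h.not_gt h1.2),
          if_pos (show n ∈ {n | n ∈ A ∧ a n < 0} from ⟨hA, h⟩), if_pos hA, sg_neg h]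
        norm_num
      · rw [if_neg (fun h1 : n ∈ {n | n ∈ A ∧ 0 < a n} => h1.2.ne' h),
          if_neg (fun h1 : n ∈ {n | n ∈ A ∧ a n < 0} => h1.2.ne h), if_pos hA, h, sg_zero]
        norm_num
      · rw [if_pos (show n ∈ {n | n ∈ A ∧ 0 < a n} from ⟨hA, h⟩),
          if_neg (fun h1 : n ∈ {n | n ∈ A ∧ a n < 0} => h.not_gt h1.2), if_pos hA, sg_pos h]
        norm_num
    · rw [if_neg (fun h1 : n ∈ {n | n ∈ A ∧ 0 < a n} => hA h1.1),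
        if_neg (fun h1 : n ∈ {n | n ∈ A ∧ a n < 0} => hA h1.1), if_neg hA]
      norm_num
  · rw [cnt_eq_sum]
    refine Finset.sum_congr rfl fun n _ => ?_
    by_cases hA : n ∈ A
    · rw [if_pos hA, sg_sq]
      by_cases h : a n = 0
      · rw [if_neg (fun h1 : n ∈ {n | n ∈ A ∧ a n ≠ 0} => h1.2 h), if_pos h]
      · rw [if_pos (show n ∈ {n | n ∈ A ∧ a n ≠ 0} from ⟨hA, h⟩), if_neg h]
    · rw [if_neg (fun h1 : n ∈ {n | n ∈ A ∧ a n ≠ 0} => hA h1.1), if_neg hA]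

open Classical in
/-- The sum over the union. -/
theorem sum_Au {ι : Type} (R : Finset ι) {m : ι → ℕ} (hm : ∀ r ∈ R, 1 ≤ m r) {q : ℕ}
    (hd : ∀ r ∈ R, ∀ r' ∈ R, ∀ k k' : ℕ, k.Coprime q → k'.Coprime q →
      m r ^ 2 * k = m r' ^ 2 * k' → r = r') (F : ℕ → ℝ) (x : ℕ) :
    ∑ n ∈ Ioc 0 x, (if n ∈ Au R m q then F n else 0) =
      ∑ r ∈ R, ∑ n ∈ Ioc 0 (x / m r ^ 2), (if n.Coprime q then F (m r ^ 2 * n) else 0) := by
  have hR : ∑ r ∈ R, ∑ n ∈ Ioc 0 (x / m r ^ 2), (if n.Coprime q then F (m r ^ 2 * n) else 0) =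
      ∑ p ∈ R.sigma (fun r => (Ioc 0 (x / m r ^ 2)).filter (fun n => n.Coprime q)),
        F (m p.1 ^ 2 * p.2) := by
    rw [Finset.sum_sigma]
    refine Finset.sum_congr rfl fun r _ => ?_
    rw [Finset.sum_filter]
  rw [hR, ← Finset.sum_filter]
  symm
  refine Finset.sum_bij (fun p _ => m p.1 ^ 2 * p.2) ?_ ?_ ?_ ?_
  · rintro ⟨r, k⟩ hk
    rw [Finset.mem_sigma, Finset.mem_filter, Finset.mem_Ioc] at hk
    obtain ⟨h1, ⟨h2, h3⟩, h4⟩ := hk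
    have hmr : 0 < m r ^ 2 := pow_pos (hm r h1) 2
    have h3' : k * m r ^ 2 ≤ x := (Nat.le_div_iff_mul_le hmr).1 h3
    rw [Finset.mem_filter, Finset.mem_Ioc]
    refine ⟨⟨Nat.mul_pos hmr h2, ?_⟩, ⟨r, h1, k, h4, rfl⟩⟩
    show m r ^ 2 * k ≤ x
    rw [mul_comm]
    exact h3'
  · rintro ⟨r, k⟩ hk ⟨r', k'⟩ hk' heq
    rw [Finset.mem_sigma, Finset.mem_filter, Finset.mem_Ioc] at hk hk'
    obtain ⟨h1, ⟨h2, h3⟩, h4⟩ := hk
    obtain ⟨h1', ⟨h2', h3'⟩, h4'⟩ := hk'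
    have heq' : m r ^ 2 * k = m r' ^ 2 * k' := heq
    have h5 : r = r' := hd r h1 r' h1' k k' h4 h4' heq'
    subst h5
    have h6 : k = k' := Nat.eq_of_mul_eq_mul_left (pow_pos (hm r h1) 2) heq'
    subst h6
    rfl
  · intro n hn
    rw [Finset.mem_filter, Finset.mem_Ioc] at hn
    obtain ⟨⟨h1, h2⟩, r, hr, k, hk, h3⟩ := hn
    have hmr : 0 < m r ^ 2 := pow_pos (hm r hr) 2
    refine ⟨⟨r, k⟩, ?_, h3.symm⟩
    rw [Finset.mem_sigma, Finset.mem_filter, Finset.mem_Ioc]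
    refine ⟨hr, ⟨?_, ?_⟩, hk⟩
    · show 0 < k
      rcases Nat.eq_zero_or_pos k with h4 | h4
      · rw [h4, mul_zero] at h3
        omega
      · exact h4
    · show k ≤ x / m r ^ 2
      rw [Nat.le_div_iff_mul_le hmr, mul_comm, ← h3]
      exact h2
  · intro p _
    rfl

/-- The union is periodic. -/
theorem per_Au {ι : Type} (R : Finset ι) {m : ι → ℕ} (hm : ∀ r ∈ R, 1 ≤ m r) {q : ℕ}
    (hq : 2 ≤ q) : ∃ b : ℕ, 1 ≤ b ∧ ∀ n, n + b ∈ Au R m q ↔ n ∈ Au R m q := by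
  have hpos : 1 ≤ ∏ r ∈ R, m r ^ 2 :=
    Finset.one_le_prod' fun r hr => Nat.one_le_pow _ _ (hm r hr)
  refine ⟨q * ∏ r ∈ R, m r ^ 2, Nat.mul_pos (by omega) hpos, fun n => ?_⟩
  constructor
  · rintro ⟨r, hr, k', hk', h⟩
    obtain ⟨e, he⟩ := Finset.dvd_prod_of_mem (fun r => m r ^ 2) hr
    have hmr : 0 < m r ^ 2 := pow_pos (hm r hr) 2
    have he' : q * ∏ r ∈ R, m r ^ 2 = m r ^ 2 * (q * e) := by
      rw [he]
      ring
    rw [he'] at h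
    have h1 : q * e ≤ k' := by
      refine Nat.le_of_mul_le_mul_left ?_ hmr
      rw [← h]
      exact Nat.le_add_left _ _
    obtain ⟨k, rfl⟩ := Nat.exists_eq_add_of_le' h1
    refine ⟨r, hr, k, (Nat.coprime_add_mul_left_left k q e).1 hk', ?_⟩
    rw [mul_add] at h
    exact Nat.add_right_cancel h
  · rintro ⟨r, hr, k, hk, h⟩
    obtain ⟨e, he⟩ := Finset.dvd_prod_of_mem (fun r => m r ^ 2) hr
    have he' : q * ∏ r ∈ R, m r ^ 2 = m r ^ 2 * (q * e) := by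
      rw [he]
      ring
    refine ⟨r, hr, k + q * e, (Nat.coprime_add_mul_left_left k q e).2 hk, ?_⟩
    rw [he', h, mul_add]

end Pool.Agent.H.MP_656320_nt.VB
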