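import Pool.Agent.H.MP_656320_nt.VB.Oa

/-!
# Orthogonality of the characters
-/

namespace Pool.Agent.H.MP_656320_nt.VB

open Finset

private theorem Ob_shift {F : ℕ → ℝ} {q : ℕ} (hF : ∀ n, F (n + q) = F n)
    (h0 : ∑ n ∈ range q, F n = 0) (a : ℕ) : ∑ i ∈ range q, F (i + a) = 0 := by
  induction a with
  | zero => simpa using h0
  | succ a ih =>
    have h1 := Finset.sum_range_succ' (fun i => F (i + a)) q
    have h2 := Finset.sum_range_succ (fun i => F (i + a)) q
    have h3 : F (q + a) = F a := by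
      rw [add_comm]
      exact hF a
    have h4 : ∑ i ∈ range q, F (i + (a + 1)) = ∑ i ∈ range q, F (i + 1 + a) := by
      apply sum_congr rfl
      intro i _
      congr 1
      ring
    rw [h4]
    simp only [zero_add] at h1
    rw [ih, h3] at h2
    linarith

private theorem Ob_range (F : ℕ → ℝ) (T : ℕ) : ∑ n ∈ Ioc 0 T, F n = ∑ i ∈ range T, F (i + 1) := by
  induction T with
  | zero => simp
  | succ T ih => rw [Finset.sum_Ioc_succ_top (Nat.zero_le T), Finset.sum_range_succ, ih]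

theorem periodic_bound {F : ℕ → ℝ} {q : ℕ} (hq : 0 < q) (hF : ∀ n, F (n + q) = F n)
    (h0 : ∑ n ∈ range q, F n = 0) (h1 : ∀ n, |F n| ≤ 1) (T : ℕ) :
    |∑ n ∈ Ioc 0 T, F n| ≤ q := by
  rw [Ob_range]
  induction T using Nat.strong_induction_on with
  | _ T ih =>
    rcases lt_or_ge T q with h | h
    · calc |∑ i ∈ range T, F (i + 1)| ≤ ∑ i ∈ range T, |F (i + 1)| := abs_sum_le_sum_abs _ _
        _ ≤ ∑ i ∈ range T, (1 : ℝ) := sum_le_sum (fun i _ => h1 (i + 1))
        _ = T := by simp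
        _ ≤ q := by exact_mod_cast h.le
    · obtain ⟨S, rfl⟩ : ∃ S, T = S + q := ⟨T - q, by omega⟩
      rw [Finset.sum_range_add]
      have h2 : ∑ x ∈ range q, F (S + x + 1) = 0 := by
        rw [← Ob_shift hF h0 (S + 1)]
        apply sum_congr rfl
        intro i _
        congr 1
        ring
      rw [h2, add_zero]
      exact ih S (by omega)

private theorem Ob_abs_ch (r : Finset ℕ) (n : ℕ) : |ch r n| ≤ 1 := by
  unfold ch
  rw [Finset.abs_prod]
  apply Finset.prod_le_one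
  · intro p _
    exact abs_nonneg _
  · intro p _
    rcases jacobiSym.trichotomy (n : ℤ) p with h | h | h <;> rw [h] <;> norm_num

private theorem Ob_ch_add {Q r : Finset ℕ} (hr : r ⊆ Q) (n : ℕ) :
    ch r (n + ∏ p ∈ Q, p) = ch r n := by
  unfold ch
  apply prod_congr rfl
  intro p hp
  have hd : p ∣ ∏ p ∈ Q, p := Finset.dvd_prod_of_mem (fun p => p) (hr hp)
  obtain ⟨c, hc⟩ := hd
  have h1 : jacobiSym (((n + ∏ p ∈ Q, p : ℕ)) : ℤ) p = jacobiSym (n : ℤ) p := by
    rw [jacobiSym.mod_left, jacobiSym.mod_left (n : ℤ) p, hc]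
    congr 1
    push_cast
    exact Int.add_mul_emod_self_left _ _ _
  exact_mod_cast h1

theorem orth {Q r r' : Finset ℕ} (hQ : ∀ p ∈ Q, p.Prime ∧ p ≠ 2) (hr : r ⊆ Q)
    (hr' : r' ⊆ Q) (hne : r ≠ r') (T : ℕ) : |∑ n ∈ Ioc 0 T,
      (if n.Coprime (∏ p ∈ Q, p) then ch r n * ch r' n else 0)| ≤ ((∏ p ∈ Q, p : ℕ) : ℝ) := by
  refine periodic_bound (F := fun n => if n.Coprime (∏ p ∈ Q, p) then ch r n * ch r' n else 0)
    (Finset.prod_pos fun p hp => (hQ p hp).1.pos) ?_ (sum_period hQ hr hr' hne) ?_ T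
  · intro n
    have h1 : (n + ∏ p ∈ Q, p).Coprime (∏ p ∈ Q, p) ↔ n.Coprime (∏ p ∈ Q, p) :=
      Nat.coprime_add_self_left
    simp only [h1, Ob_ch_add hr n, Ob_ch_add hr' n]
  · intro n
    split_ifs
    · rw [abs_mul]
      exact mul_le_one₀ (Ob_abs_ch r n) (abs_nonneg _) (Ob_abs_ch r' n)
    · simp

end Pool.Agent.H.MP_656320_nt.VB
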