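import Pool.Agent.H.MP_656320_nt.VB.Va
import Pool.Agent.H.MP_656320_nt.VB.Ob
import Pool.Agent.H.MP_656320_nt.VB.Bs
import Pool.Agent.H.MP_656320_nt.VB.Cn

/-!
# The signs of the coefficients at `m² n` for fixed `m`
-/

namespace Pool.Agent.H.MP_656320_nt.VB

open Finset

private theorem Vb_ch_le (r : Finset ℕ) (n : ℕ) : |ch r n| ≤ 1 := by
  unfold ch
  rw [Finset.abs_prod]
  refine Finset.prod_le_one (fun _ _ => abs_nonneg _) fun p _ => ?_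
  rcases jacobiSym.trichotomy n p with h | h | h <;> rw [h] <;> norm_num

private theorem Vb_sg_sq_le (x : ℝ) : sg x ^ 2 ≤ 1 := by
  rw [sg_sq]
  split_ifs <;> norm_num

private theorem Vb_bessel (a : ℕ → ℝ) {Q : Finset ℕ} (hQ : ∀ p ∈ Q, p.Prime ∧ p ≠ 2) {x : ℕ}
    (hx : 2 ^ Q.card * ∏ p ∈ Q, p ≤ x) :
    ∑ r ∈ Q.powerset, (∑ n ∈ Ioc 0 x, sg (a n) *
      (if n.Coprime (∏ p ∈ Q, p) then ch r n else 0)) ^ 2 ≤ 2 * (x : ℝ) ^ 2 := by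
  have hB := bessel Q.powerset (Ioc 0 x)
    (fun r n => if n.Coprime (∏ p ∈ Q, p) then ch r n else 0) (fun n => sg (a n))
    (D := x) (C := ((∏ p ∈ Q, p : ℕ) : ℝ)) (Nat.cast_nonneg _) (Nat.cast_nonneg _)
    (by
      intro r _
      have h1 : ∀ n ∈ Ioc 0 x, (if n.Coprime (∏ p ∈ Q, p) then ch r n else 0) ^ 2 ≤ (1 : ℝ) := by
        intro n _
        split_ifs
        · have h2 := Vb_ch_le r n
          rw [abs_le] at h2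
          nlinarith
        · norm_num
      refine (Finset.sum_le_sum h1).trans ?_
      rw [Finset.sum_const, Nat.card_Ioc, nsmul_eq_mul, mul_one, Nat.sub_zero])
    (by
      intro r hr r' hr' hne
      refine le_trans (le_of_eq ?_)
        (orth hQ (Finset.mem_powerset.1 hr) (Finset.mem_powerset.1 hr') hne x)
      congr 1
      refine Finset.sum_congr rfl fun n _ => ?_
      by_cases h3 : n.Coprime (∏ p ∈ Q, p)
      · rw [if_pos h3, if_pos h3, if_pos h3]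
      · rw [if_neg h3, if_neg h3, if_neg h3, zero_mul])
  have hs : ∑ n ∈ Ioc 0 x, sg (a n) ^ 2 ≤ x := by
    refine (Finset.sum_le_sum fun n _ => Vb_sg_sq_le (a n)).trans ?_
    rw [Finset.sum_const, Nat.card_Ioc, nsmul_eq_mul, mul_one, Nat.sub_zero]
  refine hB.trans ?_
  have h1 : (x : ℝ) + (Q.powerset.card : ℝ) * ((∏ p ∈ Q, p : ℕ) : ℝ) ≤ 2 * x := by
    have h2 : ((2 ^ Q.card * ∏ p ∈ Q, p : ℕ) : ℝ) ≤ x := by exact_mod_cast hx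
    rw [Finset.card_powerset]
    rw [Nat.cast_mul] at h2
    linarith
  have h3 : (0 : ℝ) ≤ (x : ℝ) + (Q.powerset.card : ℝ) * ((∏ p ∈ Q, p : ℕ) : ℝ) := by positivity
  calc (∑ n ∈ Ioc 0 x, sg (a n) ^ 2) * ((x : ℝ) + (Q.powerset.card : ℝ) * ((∏ p ∈ Q, p : ℕ) : ℝ))
      ≤ x * (2 * x) := mul_le_mul hs h1 h3 (Nat.cast_nonneg _)
    _ = 2 * (x : ℝ) ^ 2 := by ring

open Classical in
private theorem Vb_diff {a : ℕ → ℝ} {Q : Finset ℕ} {e : ℕ → ℕ} (hQ : ∀ p ∈ Q, p.Prime ∧ p ≠ 2)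
    (hf : ∀ p ∈ Q, Fl a p (e p)) (B : Set ℕ) (x : ℕ) {r : Finset ℕ} (hr : r ⊆ Q) :
    ((cnt {n | (n ∈ B ∧ n.Coprime (∏ p ∈ Q, p)) ∧ 0 < a ((∏ p ∈ r, p ^ e p) ^ 2 * n)} x : ℝ) -
        cnt {n | (n ∈ B ∧ n.Coprime (∏ p ∈ Q, p)) ∧ a ((∏ p ∈ r, p ^ e p) ^ 2 * n) < 0} x) ^ 2 =
      (∑ n ∈ Ioc 0 x, sg (if n ∈ B then a n else 0) *
        (if n.Coprime (∏ p ∈ Q, p) then ch r n else 0)) ^ 2 := by
  obtain ⟨κ, hκ, h1⟩ := fl_prod (a := a) (r := r) (e := e) (fun p hp => (hQ p (hr hp)).1)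
    (fun p hp => hf p (hr hp))
  have h2 := (cnt_sg {n | n ∈ B ∧ n.Coprime (∏ p ∈ Q, p)}
    (fun n => a ((∏ p ∈ r, p ^ e p) ^ 2 * n)) x).1
  have h3 : ∑ n ∈ Ioc 0 x, (if n ∈ {n : ℕ | n ∈ B ∧ n.Coprime (∏ p ∈ Q, p)} then
      sg (a ((∏ p ∈ r, p ^ e p) ^ 2 * n)) else 0) =
      κ * ∑ n ∈ Ioc 0 x, sg (if n ∈ B then a n else 0) *
        (if n.Coprime (∏ p ∈ Q, p) then ch r n else 0) := by
    rw [Finset.mul_sum]
    refine Finset.sum_congr rfl fun n hn => ?_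
    by_cases h0 : n ∈ B
    · by_cases h4 : n.Coprime (∏ p ∈ Q, p)
      · rw [if_pos (show n ∈ {n : ℕ | n ∈ B ∧ n.Coprime (∏ p ∈ Q, p)} from ⟨h0, h4⟩), if_pos h4,
          if_pos h0, h1 n (Finset.mem_Ioc.1 hn).1]
        · ring
        · intro p hp h5
          have h6 : p ∣ ∏ p ∈ Q, p := Finset.dvd_prod_of_mem _ (hr hp)
          exact (hQ p (hr hp)).1.one_lt.ne' (Nat.eq_one_of_dvd_coprimes h4 h5 h6)
      · rw [if_neg (show ¬ n ∈ {n : ℕ | n ∈ B ∧ n.Coprime (∏ p ∈ Q, p)} from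
          fun h5 => h4 h5.2), if_neg h4]
        ring
    · rw [if_neg (show ¬ n ∈ {n : ℕ | n ∈ B ∧ n.Coprime (∏ p ∈ Q, p)} from
        fun h5 => h0 h5.1), if_neg h0, sg_zero]
      ring
  have h4 : κ ^ 2 = 1 := by
    rcases hκ with h | h <;> rw [h] <;> norm_num
  have h5 : (cnt {n | (n ∈ B ∧ n.Coprime (∏ p ∈ Q, p)) ∧ 0 < a ((∏ p ∈ r, p ^ e p) ^ 2 * n)} x : ℝ) -
        cnt {n | (n ∈ B ∧ n.Coprime (∏ p ∈ Q, p)) ∧ a ((∏ p ∈ r, p ^ e p) ^ 2 * n) < 0} x =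
      κ * ∑ n ∈ Ioc 0 x, sg (if n ∈ B then a n else 0) *
        (if n.Coprime (∏ p ∈ Q, p) then ch r n else 0) := by
    rw [← h3]
    exact h2.trans (Finset.sum_congr rfl fun n _ => by congr)
  rw [h5, mul_pow, h4, one_mul]

open Classical in
/-- The number of the exceptions. -/
theorem vertical {a : ℕ → ℝ} {Q : Finset ℕ} {e : ℕ → ℕ} (hQ : ∀ p ∈ Q, p.Prime ∧ p ≠ 2)
    (hf : ∀ p ∈ Q, Fl a p (e p)) (B : Set ℕ) {ε : ℝ} (hε : 0 < ε) {x : ℕ}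
    (hx : 2 ^ Q.card * ∏ p ∈ Q, p ≤ x) :
    ((Q.powerset.filter fun r => ε * x ≤
      |(cnt {n | (n ∈ B ∧ n.Coprime (∏ p ∈ Q, p)) ∧ 0 < a ((∏ p ∈ r, p ^ e p) ^ 2 * n)} x : ℝ) -
        cnt {n | (n ∈ B ∧ n.Coprime (∏ p ∈ Q, p)) ∧ a ((∏ p ∈ r, p ^ e p) ^ 2 * n) < 0} x|).card : ℝ) ≤
      2 / ε ^ 2 := by
  have hx1 : 1 ≤ x := by
    refine le_trans ?_ hx
    exact Nat.mul_pos (by positivity) (Finset.prod_pos fun p hp => (hQ p hp).1.pos)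
  have hx0 : (0 : ℝ) < x := by exact_mod_cast hx1
  rw [le_div_iff₀ (by positivity)]
  have h1 := Vb_bessel (fun n => if n ∈ B then a n else 0) hQ hx
  beta_reduce at h1
  have h2 : ∑ r ∈ Q.powerset, (∑ n ∈ Ioc 0 x, sg (if n ∈ B then a n else 0) *
      (if n.Coprime (∏ p ∈ Q, p) then ch r n else 0)) ^ 2 =
      ∑ r ∈ Q.powerset,
        ((cnt {n | (n ∈ B ∧ n.Coprime (∏ p ∈ Q, p)) ∧ 0 < a ((∏ p ∈ r, p ^ e p) ^ 2 * n)} x : ℝ) -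
        cnt {n | (n ∈ B ∧ n.Coprime (∏ p ∈ Q, p)) ∧ a ((∏ p ∈ r, p ^ e p) ^ 2 * n) < 0} x) ^ 2 :=
    Finset.sum_congr rfl fun r hr => (Vb_diff hQ hf B x (Finset.mem_powerset.1 hr)).symm
  rw [h2] at h1
  have h3 := Finset.card_nsmul_le_sum (Q.powerset.filter fun r => ε * x ≤
      |(cnt {n | (n ∈ B ∧ n.Coprime (∏ p ∈ Q, p)) ∧ 0 < a ((∏ p ∈ r, p ^ e p) ^ 2 * n)} x : ℝ) -
        cnt {n | (n ∈ B ∧ n.Coprime (∏ p ∈ Q, p)) ∧ a ((∏ p ∈ r, p ^ e p) ^ 2 * n) < 0} x|)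
    (fun r => ((cnt {n | (n ∈ B ∧ n.Coprime (∏ p ∈ Q, p)) ∧ 0 < a ((∏ p ∈ r, p ^ e p) ^ 2 * n)} x : ℝ) -
        cnt {n | (n ∈ B ∧ n.Coprime (∏ p ∈ Q, p)) ∧ a ((∏ p ∈ r, p ^ e p) ^ 2 * n) < 0} x) ^ 2)
    ((ε * x) ^ 2) (by
      intro r hr
      have h4 := (Finset.mem_filter.1 hr).2
      rw [← sq_abs ((cnt {n | (n ∈ B ∧ n.Coprime (∏ p ∈ Q, p)) ∧
        0 < a ((∏ p ∈ r, p ^ e p) ^ 2 * n)} x : ℝ) -
        cnt {n | (n ∈ B ∧ n.Coprime (∏ p ∈ Q, p)) ∧ a ((∏ p ∈ r, p ^ e p) ^ 2 * n) < 0} x)]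
      exact pow_le_pow_left₀ (by positivity) h4 2)
  have h4 := h3.trans ((Finset.sum_le_sum_of_subset_of_nonneg (Finset.filter_subset _ _)
    (fun _ _ _ => sq_nonneg _)).trans h1)
  rw [nsmul_eq_mul, mul_pow, ← mul_assoc] at h4
  exact le_of_mul_le_mul_right h4 (by positivity)

end Pool.Agent.H.MP_656320_nt.VB
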