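import Pool.Agent.H.MP_656320_nt.VB.Cn

/-!
# Nonzero coefficients at the integers prime to the primes of a sparse set
-/

namespace Pool.Agent.H.MP_656320_nt.VB

open Finset

private theorem Cp_point {a : ℕ → ℝ} {Q : Finset ℕ} (hQ : ∀ p ∈ Q, p.Prime) (n : ℕ) :
    sg (a n) ^ 2 ≤ (if n.Coprime (∏ p ∈ Q, p) then sg (a n) ^ 2 else 0) +
      ∑ p ∈ Q, (if p ∣ n then (1 : ℝ) else 0) := by
  have h0 : ∀ p ∈ Q, (0 : ℝ) ≤ (if p ∣ n then (1 : ℝ) else 0) := by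
    intro p _
    split_ifs
    · exact zero_le_one
    · exact le_rfl
  by_cases hc : n.Coprime (∏ p ∈ Q, p)
  · rw [if_pos hc]
    exact le_add_of_nonneg_right (Finset.sum_nonneg h0)
  · rw [if_neg hc, zero_add]
    have h1 : ∃ p ∈ Q, p ∣ n := by
      by_contra hcon
      push Not at hcon
      refine hc (Nat.Coprime.prod_right fun p hp => ?_)
      exact ((Nat.Prime.coprime_iff_not_dvd (hQ p hp)).mpr (hcon p hp)).symm
    obtain ⟨p, hp, hpn⟩ := h1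
    have h2 : (if p ∣ n then (1 : ℝ) else 0) ≤ ∑ p ∈ Q, (if p ∣ n then (1 : ℝ) else 0) :=
      Finset.single_le_sum h0 hp
    rw [if_pos hpn] at h2
    refine le_trans ?_ h2
    rw [sg_sq]
    split_ifs
    · exact zero_le_one
    · exact le_rfl

theorem cop_lower {a : ℕ → ℝ} {δ : ℝ} {X : ℕ}
    (h : ∀ x : ℕ, X ≤ x → δ * x ≤ cnt {n | a n ≠ 0} x) {Q : Finset ℕ} (hQ : ∀ p ∈ Q, p.Prime)
    (hs : ∑ p ∈ Q, (1 : ℝ) / p ≤ δ / 2) (x : ℕ) (hx : X ≤ x) :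
    δ / 2 * x ≤ ∑ n ∈ Ioc 0 x, (if n.Coprime (∏ p ∈ Q, p) then sg (a n) ^ 2 else 0) := by
  have h1 : (cnt {n | a n ≠ 0} x : ℝ) = ∑ n ∈ Ioc 0 x, sg (a n) ^ 2 := by
    have h2 := (cnt_sg Set.univ a x).2
    have h3 : {n : ℕ | n ∈ (Set.univ : Set ℕ) ∧ a n ≠ 0} = {n | a n ≠ 0} := by
      ext n
      simp
    rw [h3] at h2
    rw [h2]
    refine Finset.sum_congr rfl fun n _ => ?_
    rw [if_pos (Set.mem_univ n)]
  have h4 := h x hx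
  rw [h1] at h4
  have h5 : ∑ n ∈ Ioc 0 x, sg (a n) ^ 2 ≤
      ∑ n ∈ Ioc 0 x, (if n.Coprime (∏ p ∈ Q, p) then sg (a n) ^ 2 else 0) +
        ∑ n ∈ Ioc 0 x, ∑ p ∈ Q, (if p ∣ n then (1 : ℝ) else 0) := by
    rw [← Finset.sum_add_distrib]
    exact Finset.sum_le_sum fun n _ => Cp_point hQ n
  have h6 : ∑ n ∈ Ioc 0 x, ∑ p ∈ Q, (if p ∣ n then (1 : ℝ) else 0) ≤
      ∑ p ∈ Q, (x : ℝ) * ((1 : ℝ) / p) := by
    rw [Finset.sum_comm]
    refine Finset.sum_le_sum fun p _ => ?_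
    rw [Finset.sum_boole, Nat.Ioc_filter_dvd_card_eq_div, mul_one_div]
    exact Nat.cast_div_le
  rw [← Finset.mul_sum] at h6
  have h7 : (x : ℝ) * ∑ p ∈ Q, (1 : ℝ) / p ≤ x * (δ / 2) :=
    mul_le_mul_of_nonneg_left hs (Nat.cast_nonneg x)
  linarith

end Pool.Agent.H.MP_656320_nt.VB
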