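import Pool.Agent.H.MP_656320_nt.VB.Ob

/-!
# Orthogonality of the characters with a periodic weight
-/

namespace Pool.Agent.H.MP_656320_nt.VB

open Finset

private theorem Oc_blocks (G : ℕ → ℝ) (b t : ℕ) :
    ∑ n ∈ range (b * t), G n = ∑ c ∈ range b, ∑ s ∈ range t, G (b * s + c) := by
  induction t with
  | zero => simp
  | succ t ih =>
    rw [Nat.mul_succ, Finset.sum_range_add, ih, ← Finset.sum_add_distrib]
    exact Finset.sum_congr rfl fun c _ => (Finset.sum_range_succ _ t).symm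

private theorem Oc_inner {F : ℕ → ℝ} {b q : ℕ} (hq : 0 < q) (hbq : b.Coprime q)
    (hF : ∀ n, F (n + q) = F n) (h0 : ∑ n ∈ range q, F n = 0) (c : ℕ) :
    ∑ s ∈ range q, F (b * s + c) = 0 := by
  classical
  have hper : ∀ n, F (n % q) = F n := by
    intro n
    have h : Function.Periodic F q := hF
    exact h.map_mod_nat n
  have hinj : Set.InjOn (fun s => (b * s + c) % q) (range q : Set ℕ) := by
    intro s hs s' hs' h
    have hs1 : s < q := by simpa using hs
    have hs1' : s' < q := by simpa using hs'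
    have h1 : b * s + c ≡ b * s' + c [MOD q] := h
    have h2 : b * s ≡ b * s' [MOD q] := Nat.ModEq.add_right_cancel' c h1
    have h3 : s ≡ s' [MOD q] :=
      Nat.ModEq.cancel_left_of_coprime ((Nat.coprime_comm.1 hbq) : Nat.gcd q b = 1) h2
    exact Nat.ModEq.eq_of_lt_of_lt h3 hs1 hs1'
  have himg : (range q).image (fun s => (b * s + c) % q) = range q := by
    apply Finset.eq_of_subset_of_card_le
    · intro x hx
      obtain ⟨s, -, rfl⟩ := Finset.mem_image.1 hx
      exact Finset.mem_range.2 (Nat.mod_lt _ hq)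
    · rw [Finset.card_image_of_injOn hinj]
  calc ∑ s ∈ range q, F (b * s + c) = ∑ s ∈ range q, F ((b * s + c) % q) :=
        Finset.sum_congr rfl fun s _ => (hper _).symm
    _ = ∑ x ∈ (range q).image (fun s => (b * s + c) % q), F x := by
        rw [Finset.sum_image hinj]
    _ = 0 := by rw [himg, h0]

private theorem Oc_full {F g : ℕ → ℝ} {b q : ℕ} (hq : 0 < q) (hbq : b.Coprime q)
    (hF : ∀ n, F (n + q) = F n) (hg : ∀ n, g (n + b) = g n) (h0 : ∑ n ∈ range q, F n = 0) :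
    ∑ n ∈ range (b * q), g n * F n = 0 := by
  rw [Oc_blocks]
  apply Finset.sum_eq_zero
  intro c _
  have hgc : ∀ s, g (b * s + c) = g c := by
    intro s
    induction s with
    | zero => simp
    | succ s ih =>
      have h : b * (s + 1) + c = (b * s + c) + b := by ring
      rw [h, hg, ih]
  calc ∑ s ∈ range q, g (b * s + c) * F (b * s + c)
      = ∑ s ∈ range q, g c * F (b * s + c) := Finset.sum_congr rfl fun s _ => by rw [hgc]
    _ = 0 := by rw [← Finset.mul_sum, Oc_inner hq hbq hF h0, mul_zero]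

private theorem Oc_abs_ch (r : Finset ℕ) (n : ℕ) : |ch r n| ≤ 1 := by
  unfold ch
  rw [Finset.abs_prod]
  apply Finset.prod_le_one
  · intro p _
    exact abs_nonneg _
  · intro p _
    rcases jacobiSym.trichotomy (n : ℤ) p with h | h | h <;> rw [h] <;> norm_num

private theorem Oc_ch_add {Q r : Finset ℕ} (hr : r ⊆ Q) (n : ℕ) :
    ch r (n + ∏ p ∈ Q, p) = ch r n := by
  unfold ch
  apply prod_congr rfl
  intro p hp
  have hd : p ∣ ∏ p ∈ Q, p := Finset.dvd_prod_of_mem (fun p => p) (hr hp)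
  obtain ⟨c, hc⟩ := hd
  have h1 : jacobiSym (((n + ∏ p ∈ Q, p : ℕ)) : ℤ) p = jacobiSym (n : ℤ) p := by
    rw [jacobiSym.mod_left, jacobiSym.mod_left (n : ℤ) p, hc]
    congr 1
    push_cast
    exact Int.add_mul_emod_self_left _ _ _
  exact_mod_cast h1

theorem orth_per {Q r r' : Finset ℕ} (hQ : ∀ p ∈ Q, p.Prime ∧ p ≠ 2) (hr : r ⊆ Q)
    (hr' : r' ⊆ Q) (hne : r ≠ r') {b : ℕ} (hb : 0 < b) (hbq : b.Coprime (∏ p ∈ Q, p))
    {g : ℕ → ℝ} (hg : ∀ n, g (n + b) = g n) (hg1 : ∀ n, |g n| ≤ 1) (T : ℕ) :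
    |∑ n ∈ Ioc 0 T, g n * (if n.Coprime (∏ p ∈ Q, p) then ch r n * ch r' n else 0)| ≤
      (b : ℝ) * ((∏ p ∈ Q, p : ℕ) : ℝ) := by
  have hq : 0 < ∏ p ∈ Q, p := Finset.prod_pos fun p hp => (hQ p hp).1.pos
  have hF : ∀ n, (fun n => if n.Coprime (∏ p ∈ Q, p) then ch r n * ch r' n else 0)
      (n + ∏ p ∈ Q, p) = (fun n => if n.Coprime (∏ p ∈ Q, p) then ch r n * ch r' n else 0) n := by
    intro n
    have h1 : (n + ∏ p ∈ Q, p).Coprime (∏ p ∈ Q, p) ↔ n.Coprime (∏ p ∈ Q, p) :=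
      Nat.coprime_add_self_left
    simp only [h1, Oc_ch_add hr n, Oc_ch_add hr' n]
  have hF1 : ∀ n, |(fun n => if n.Coprime (∏ p ∈ Q, p) then ch r n * ch r' n else 0) n| ≤ 1 := by
    intro n
    show |if n.Coprime (∏ p ∈ Q, p) then ch r n * ch r' n else 0| ≤ 1
    split_ifs
    · rw [abs_mul]
      exact mul_le_one₀ (Oc_abs_ch r n) (abs_nonneg _) (Oc_abs_ch r' n)
    · simp
  have h0 := Oc_full hq hbq hF hg (sum_period hQ hr hr' hne)
  have hP : ∀ n, (fun n => g n * (fun n => if n.Coprime (∏ p ∈ Q, p) then ch r n * ch r' n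
      else 0) n) (n + b * ∏ p ∈ Q, p) = (fun n => g n * (fun n => if n.Coprime (∏ p ∈ Q, p)
      then ch r n * ch r' n else 0) n) n := by
    intro n
    have h1 : Function.Periodic g b := hg
    have h2 : Function.Periodic (fun n => if n.Coprime (∏ p ∈ Q, p) then ch r n * ch r' n
      else 0) (∏ p ∈ Q, p) := hF
    have h3 : g (n + b * ∏ p ∈ Q, p) = g n := by
      have h := (h1.nat_mul (∏ p ∈ Q, p)) n
      rw [Nat.mul_comm b]
      exact_mod_cast h
    have h4 := (h2.nat_mul b) n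
    have h4' : (fun n => if n.Coprime (∏ p ∈ Q, p) then ch r n * ch r' n else 0)
      (n + b * ∏ p ∈ Q, p) = (fun n => if n.Coprime (∏ p ∈ Q, p) then ch r n * ch r' n
      else 0) n := by exact_mod_cast h4
    show g (n + b * ∏ p ∈ Q, p) * (fun n => if n.Coprime (∏ p ∈ Q, p) then ch r n * ch r' n
      else 0) (n + b * ∏ p ∈ Q, p) = _
    rw [h3, h4']
  have hB : ∀ n, |(fun n => g n * (fun n => if n.Coprime (∏ p ∈ Q, p) then ch r n * ch r' n
      else 0) n) n| ≤ 1 := by
    intro n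
    show |g n * (fun n => if n.Coprime (∏ p ∈ Q, p) then ch r n * ch r' n else 0) n| ≤ 1
    rw [abs_mul]
    exact mul_le_one₀ (hg1 n) (abs_nonneg _) (hF1 n)
  have h := periodic_bound (Nat.mul_pos hb hq) hP h0 hB T
  rw [Nat.cast_mul] at h
  exact h

end Pool.Agent.H.MP_656320_nt.VB
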