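import Pool.Agent.H.MP_656320_nt.VB.Def

/-!
# The sign of the coefficients at one prime
-/

namespace Pool.Agent.H.MP_656320_nt.VB

private theorem Sg_aux {A y : ℝ} (h : |A| < |y|) : sg (A - y) = -sg y := by
  rcases lt_trichotomy y 0 with hy | hy | hy
  · rw [abs_of_neg hy] at h
    have h1 := neg_abs_le A
    rw [sg_neg hy, sg_pos (by linarith), neg_neg]
  · rw [hy, abs_zero] at h
    exact absurd h (abs_nonneg A).not_gt
  · rw [abs_of_pos hy] at h
    have h1 := le_abs_self A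
    rw [sg_pos hy, sg_neg (by linarith)]

private theorem Sg_pm {x : ℝ} (hx : x ≠ 0) : sg x = 1 ∨ sg x = -1 := by
  rcases lt_or_gt_of_ne hx with h | h
  · exact Or.inr (sg_neg h)
  · exact Or.inl (sg_pos h)

private theorem Sg_pm2 {x : ℝ} (hx : x = 1 ∨ x = -1) : sg x = x ∧ |x| = 1 := by
  rcases hx with rfl | rfl
  · exact ⟨sg_pos one_pos, abs_one⟩
  · refine ⟨sg_neg (by norm_num), ?_⟩
    rw [abs_neg, abs_one]

private theorem Sg_mulpm {x y : ℝ} (hx : x = 1 ∨ x = -1) (hy : y = 1 ∨ y = -1) :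
    x * y = 1 ∨ x * y = -1 := by
  rcases hx with rfl | rfl <;> rcases hy with rfl | rfl <;> norm_num

private theorem Sg_powpm {x : ℝ} (hx : x = 1 ∨ x = -1) (l : ℕ) : x ^ l = 1 ∨ x ^ l = -1 := by
  induction l with
  | zero => exact Or.inl (pow_zero x)
  | succ l ih =>
    rw [pow_succ]
    exact Sg_mulpm ih hx

theorem fl_of_lt {l N : ℕ} {χ lam : ℕ → ℂ} {a : ℕ → ℝ} (h : Hecke l N χ lam a) {p : ℕ}
    (hp : p.Prime) (hpN : ¬ p ∣ N) (hχ : χ p ^ 2 = 1) {L : ℝ} (hL : lam p = L) {j : ℕ}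
    (hj : |hh L ((p : ℝ) ^ (2 * (l : ℤ) - 1)) (j + 1)| <
      (p : ℝ) ^ ((l : ℤ) - 1) * |hh L ((p : ℝ) ^ (2 * (l : ℤ) - 1)) j|) : Fl a p j := by
  obtain ⟨s, hs, hsχ⟩ : ∃ s : ℝ, (s = 1 ∨ s = -1) ∧ χ p = (s : ℂ) := by
    have h1 : (χ p - 1) * (χ p + 1) = 0 := by
      have h2 : (χ p - 1) * (χ p + 1) = χ p ^ 2 - 1 := by ring
      rw [h2, hχ, sub_self]
    rcases mul_eq_zero.1 h1 with h2 | h2
    · exact ⟨1, Or.inl rfl, by rw [Complex.ofReal_one]; exact sub_eq_zero.1 h2⟩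
    · refine ⟨-1, Or.inr rfl, ?_⟩
      rw [Complex.ofReal_neg, Complex.ofReal_one]
      exact eq_neg_of_add_eq_zero_left h2
  obtain ⟨C, hC⟩ : ∃ C, C = (p : ℝ) ^ (2 * (l : ℤ) - 1) := ⟨_, rfl⟩
  obtain ⟨B, hB⟩ : ∃ B, B = (p : ℝ) ^ ((l : ℤ) - 1) := ⟨_, rfl⟩
  have hp0 : (0 : ℝ) < p := by exact_mod_cast hp.pos
  have hB0 : 0 < B := by
    rw [hB]
    exact zpow_pos hp0 _
  rw [← hC, ← hB] at hj
  have hx0 : hh L C j ≠ 0 := by
    intro h0
    rw [h0, abs_zero, mul_zero] at hj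
    exact absurd hj (abs_nonneg _).not_gt
  have he : ((jacobiSym (-1) p : ℤ) : ℝ) = 1 ∨ ((jacobiSym (-1) p : ℤ) : ℝ) = -1 := by
    have h1 : Int.gcd (-1) p = 1 := by simp
    rcases jacobiSym.eq_one_or_neg_one h1 with h2 | h2
    · left
      rw [h2]
      norm_num
    · right
      rw [h2]
      norm_num
  refine ⟨-(s * ((jacobiSym (-1) p : ℤ) : ℝ) ^ l * sg (hh L C j)), ?_, fun n hn hpn => ?_⟩
  · have h1 := Sg_mulpm (Sg_mulpm hs (Sg_powpm he l)) (Sg_pm hx0)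
    rcases h1 with h2 | h2
    · right
      rw [h2]
    · left
      rw [h2, neg_neg]
  have hen : ((jacobiSym n p : ℤ) : ℝ) = 1 ∨ ((jacobiSym n p : ℤ) : ℝ) = -1 := by
    have h1 : Int.gcd (n : ℤ) p = 1 := by
      rw [Int.gcd_natCast_natCast]
      exact ((Nat.Prime.coprime_iff_not_dvd hp).2 hpn).symm
    rcases jacobiSym.eq_one_or_neg_one h1 with h2 | h2
    · left
      rw [h2]
      norm_num
    · right
      rw [h2]
      norm_num
  obtain ⟨J, hJ⟩ : ∃ J : ℝ, J = ((jacobiSym ((-1) ^ l * n) p : ℤ) : ℝ) := ⟨_, rfl⟩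
  have hJe : J = ((jacobiSym (-1) p : ℤ) : ℝ) ^ l * ((jacobiSym n p : ℤ) : ℝ) := by
    rw [hJ, jacobiSym.mul_left, jacobiSym.pow_left]
    push_cast
    rfl
  have hJ1 : J = 1 ∨ J = -1 := by
    rw [hJe]
    exact Sg_mulpm (Sg_powpm he l) hen
  have hp2 : ¬ p ^ 2 ∣ n := fun h1 => hpn ((dvd_pow_self p two_ne_zero).trans h1)
  have h1 : a (p ^ 2 * n) + s * J * B * a n = L * a n := by
    have h2 := h.rel p hp hpN n hn
    rw [if_neg hp2, Complex.ofReal_zero, mul_zero, add_zero, hsχ, hL] at h2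
    apply Complex.ofReal_injective
    rw [hJ, hB]
    push_cast
    exact h2
  have hrec : ∀ j, a (p ^ (2 * j) * n) = (hh L C (j + 1) - s * J * B * hh L C j) * a n ∧
      a (p ^ (2 * (j + 1)) * n) = (hh L C (j + 2) - s * J * B * hh L C (j + 1)) * a n := by
    intro j
    induction j with
    | zero =>
      have e0 : hh L C 0 = 0 := rfl
      have e1 : hh L C (0 + 1) = 1 := rfl
      have e2 : hh L C (0 + 2) = L * hh L C (0 + 1) - C * hh L C 0 := rfl
      constructor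
      · rw [e0, e1]
        simp
      · rw [e2, e1, e0]
        simp only [zero_add, mul_one]
        linarith
    | succ j ih =>
      refine ⟨ih.2, ?_⟩
      have e3 : hh L C (j + 1 + 2) = L * hh L C (j + 2) - C * hh L C (j + 1) := rfl
      have e2 : hh L C (j + 2) = L * hh L C (j + 1) - C * hh L C j := rfl
      have h3 := rec_pow h hp hpN hχ hn j
      rw [hL, Complex.ofReal_re, ← hC, ih.1, ih.2] at h3
      show a (p ^ (2 * (j + 2)) * n) = (hh L C (j + 1 + 2) - s * J * B * hh L C (j + 2)) * a n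
      rw [h3, e3]
      have e4 : s * J * B * hh L C (j + 2) =
          L * (s * J * B * hh L C (j + 1)) - C * (s * J * B * hh L C j) := by
        rw [e2]
        ring
      rw [e4]
      ring
  have hy : |s * J * B * hh L C j| = B * |hh L C j| := by
    rw [abs_mul, abs_mul, (Sg_pm2 (Sg_mulpm hs hJ1)).2, abs_of_pos hB0, one_mul]
  have h5 : sg (hh L C (j + 1) - s * J * B * hh L C j) = -sg (s * J * B * hh L C j) :=
    Sg_aux (by rw [hy]; exact hj)
  rw [(hrec j).1, sg_mul, h5, sg_mul, sg_mul, (Sg_pm2 (Sg_mulpm hs hJ1)).1, sg_pos hB0, hJe]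
  ring

end Pool.Agent.H.MP_656320_nt.VB
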