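import Pool.Agent.H.MP_656320_nt.VB.Def

/-!
# The sign of the coefficients at several primes
-/

namespace Pool.Agent.H.MP_656320_nt.VB

open Finset

theorem fl_prod {a : ℕ → ℝ} {r : Finset ℕ} {e : ℕ → ℕ} (hr : ∀ p ∈ r, p.Prime)
    (hf : ∀ p ∈ r, Fl a p (e p)) : ∃ κ : ℝ, (κ = 1 ∨ κ = -1) ∧ ∀ n : ℕ, 1 ≤ n →
      (∀ p ∈ r, ¬ p ∣ n) → sg (a ((∏ p ∈ r, p ^ e p) ^ 2 * n)) = κ * ch r n * sg (a n) := by
  classical
  induction r using Finset.induction_on with
  | empty =>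
    refine ⟨1, Or.inl rfl, fun n _ _ => ?_⟩
    rw [Finset.prod_empty, one_pow, one_mul]
    unfold ch
    rw [Finset.prod_empty, one_mul, one_mul]
  | insert p r hpr ih =>
    obtain ⟨κ, hκ, h1⟩ := ih (fun q hq => hr q (Finset.mem_insert_of_mem hq))
      (fun q hq => hf q (Finset.mem_insert_of_mem hq))
    obtain ⟨κ', hκ', h2⟩ := hf p (Finset.mem_insert_self p r)
    have hp : p.Prime := hr p (Finset.mem_insert_self p r)
    refine ⟨κ' * κ, ?_, ?_⟩
    · rcases hκ with h | h <;> rcases hκ' with h' | h' <;> rw [h, h'] <;> norm_num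
    · intro n hn hpn
      have hnp : ¬ p ∣ n := hpn p (Finset.mem_insert_self p r)
      have hnr : ∀ q ∈ r, ¬ q ∣ n := fun q hq => hpn q (Finset.mem_insert_of_mem hq)
      have hpm : ¬ p ∣ ∏ q ∈ r, q ^ e q := by
        intro h
        obtain ⟨q, hq, hq'⟩ := (Prime.dvd_finset_prod_iff hp.prime _).1 h
        have h3 := hp.dvd_of_dvd_pow hq'
        have h4 := (Nat.prime_dvd_prime_iff_eq hp (hr q (Finset.mem_insert_of_mem hq))).1 h3
        rw [h4] at hpr
        exact hpr hq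
      have hm0 : 1 ≤ ∏ q ∈ r, q ^ e q :=
        Finset.prod_pos fun q hq => pow_pos (hr q (Finset.mem_insert_of_mem hq)).pos _
      have h3 : ¬ p ∣ (∏ q ∈ r, q ^ e q) ^ 2 * n := by
        intro h
        rcases (Nat.Prime.dvd_mul hp).1 h with h | h
        · exact hpm (hp.dvd_of_dvd_pow h)
        · exact hnp h
      have h4 : (∏ q ∈ insert p r, q ^ e q) ^ 2 * n =
          p ^ (2 * e p) * ((∏ q ∈ r, q ^ e q) ^ 2 * n) := by
        rw [Finset.prod_insert hpr]
        ring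
      have h5 : jacobiSym (((∏ q ∈ r, q ^ e q) ^ 2 * n : ℕ) : ℤ) p = jacobiSym (n : ℤ) p := by
        rw [Nat.cast_mul, Nat.cast_pow, jacobiSym.mul_left, jacobiSym.sq_one' ?_, one_mul]
        refine Int.isCoprime_iff_gcd_eq_one.1 (Nat.isCoprime_iff_coprime.2 ?_)
        exact ((Nat.Prime.coprime_iff_not_dvd hp).2 hpm).symm
      have h6 : 1 ≤ (∏ q ∈ r, q ^ e q) ^ 2 * n := Nat.mul_pos (pow_pos hm0 2) hn
      rw [h4, h2 _ h6 h3, h5, h1 n hn hnr]
      unfold ch
      rw [Finset.prod_insert hpr]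
      ring

end Pool.Agent.H.MP_656320_nt.VB
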