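import Pool.Agent.H.MP_656320_nt.VB.Def

/-!
# Choice of the exponents
-/

namespace Pool.Agent.H.MP_656320_nt.VB

open Finset

theorem sizes {a : ℕ → ℝ} {p₀ G : ℕ} (hp₀ : p₀.Prime)
    (hG : ∀ M : ℕ, ∃ j : ℕ, M < j ∧ j ≤ M + G ∧ Fl a p₀ j) {Q' : Finset ℕ}
    (hQ' : ∀ p ∈ Q', p.Prime) (h₀ : p₀ ∉ Q') (hf : ∀ p ∈ Q', ∃ j, 1 ≤ j ∧ Fl a p j) :
    ∃ (X : ℕ) (e : Finset ℕ → ℕ → ℕ), 1 ≤ X ∧ ∀ r, r ⊆ Q' →
      (∀ p ∈ insert p₀ r, 1 ≤ e r p ∧ Fl a p (e r p)) ∧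
      X ≤ ∏ p ∈ insert p₀ r, p ^ e r p ∧ ∏ p ∈ insert p₀ r, p ^ e r p ≤ X * p₀ ^ (G + 1) := by
  classical
  choose! e0 he0 using hf
  obtain ⟨W, hW⟩ : ∃ W : Finset ℕ → ℕ, ∀ r, W r = ∏ p ∈ r, p ^ e0 p := ⟨_, fun _ => rfl⟩
  have hpos : ∀ r, r ⊆ Q' → 1 ≤ W r := by
    intro r hr
    rw [hW]
    exact Nat.one_le_iff_ne_zero.2 (prod_ne_zero_iff.2 fun p hp =>
      pow_ne_zero _ (hQ' p (hr hp)).ne_zero)
  have hle : ∀ r, r ⊆ Q' → W r ≤ W Q' := by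
    intro r hr
    rw [hW, hW]
    exact prod_le_prod_of_subset_of_one_le' hr fun p hp _ =>
      Nat.one_le_iff_ne_zero.2 (pow_ne_zero _ (hQ' p hp).ne_zero)
  obtain ⟨E, hE⟩ : ∃ E, E = W Q' := ⟨_, rfl⟩
  have hEle : W Q' ≤ p₀ ^ E := by
    rw [← hE]
    exact (Nat.lt_pow_self hp₀.one_lt).le
  have key : ∀ r, r ⊆ Q' → ∃ j, 1 ≤ j ∧ Fl a p₀ j ∧ p₀ ^ E ≤ p₀ ^ j * W r ∧
      p₀ ^ j * W r ≤ p₀ ^ E * p₀ ^ (G + 1) := by
    intro r hr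
    have hex : ∃ M, p₀ ^ E ≤ p₀ ^ M * W r := ⟨E, Nat.le_mul_of_pos_right _ (hpos r hr)⟩
    obtain ⟨M, hM⟩ : ∃ M, M = Nat.find hex := ⟨_, rfl⟩
    have h1 : p₀ ^ E ≤ p₀ ^ M * W r := by
      rw [hM]
      exact Nat.find_spec hex
    have h2 : p₀ ^ M * W r ≤ p₀ ^ (E + 1) := by
      rcases M with _ | M
      · rw [pow_zero, one_mul]
        exact ((hle r hr).trans hEle).trans (Nat.pow_le_pow_right hp₀.pos (Nat.le_succ _))
      · have h3 : ¬ p₀ ^ E ≤ p₀ ^ M * W r := by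
          refine Nat.find_min hex ?_
          rw [← hM]
          exact Nat.lt_succ_self M
        push Not at h3
        calc p₀ ^ (M + 1) * W r = p₀ * (p₀ ^ M * W r) := by ring
          _ ≤ p₀ * p₀ ^ E := Nat.mul_le_mul_left _ h3.le
          _ = p₀ ^ (E + 1) := by ring
    obtain ⟨j, hj1, hj2, hj3⟩ := hG M
    refine ⟨j, by omega, hj3, ?_, ?_⟩
    · exact h1.trans (Nat.mul_le_mul_right _ (Nat.pow_le_pow_right hp₀.pos hj1.le))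
    · calc p₀ ^ j * W r ≤ p₀ ^ (M + G) * W r :=
            Nat.mul_le_mul_right _ (Nat.pow_le_pow_right hp₀.pos hj2)
        _ = p₀ ^ G * (p₀ ^ M * W r) := by ring
        _ ≤ p₀ ^ G * p₀ ^ (E + 1) := Nat.mul_le_mul_left _ h2
        _ = p₀ ^ E * p₀ ^ (G + 1) := by ring
  choose! j hj using key
  refine ⟨p₀ ^ E, fun r p => if p = p₀ then j r else e0 p, Nat.one_le_pow _ _ hp₀.pos,
    fun r hr => ?_⟩
  obtain ⟨hj1, hj2, hj3, hj4⟩ := hj r hr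
  have h0 : p₀ ∉ r := fun h => h₀ (hr h)
  have hprod : ∏ p ∈ insert p₀ r, p ^ (if p = p₀ then j r else e0 p) = p₀ ^ j r * W r := by
    rw [prod_insert h0, if_pos rfl, hW]
    congr 1
    refine prod_congr rfl fun p hp => ?_
    rw [if_neg]
    rintro rfl
    exact h0 hp
  refine ⟨?_, ?_, ?_⟩
  · intro p hp
    rcases mem_insert.1 hp with h5 | h5
    · simp only [if_pos h5]
      rw [h5]
      exact ⟨hj1, hj2⟩
    · have hne : p ≠ p₀ := fun h6 => h0 (h6 ▸ h5)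
      simp only [if_neg hne]
      exact he0 p (hr h5)
  · simp only [hprod]
    exact hj3
  · simp only [hprod]
    exact hj4

end Pool.Agent.H.MP_656320_nt.VB
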