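import Pool.Agent.H.MP_656320_nt.VB.Gb
import Pool.Agent.H.MP_656320_nt.VB.Sg
import Pool.Agent.H.MP_656320_nt.VB.Sm
import Pool.Agent.H.MP_656320_nt.VB.Oc
import Pool.Agent.H.MP_656320_nt.VB.Bs
import Pool.Agent.H.MP_656320_nt.VB.Sz
import Pool.Agent.H.MP_656320_nt.VB.Cp

/-!
# Balanced sets of residue classes
-/

namespace Pool.Agent.H.MP_656320_nt.VB

open Finset

theorem gap_fl {l N : ℕ} {χ lam : ℕ → ℂ} {a : ℕ → ℝ} (h : Hecke l N χ lam a) {p : ℕ}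
    (hp : Good l N χ lam p) : ∃ G : ℕ, ∀ M : ℕ, ∃ j : ℕ, M < j ∧ j ≤ M + G ∧ Fl a p j := by
  obtain ⟨hp1, hp2, hp3, L, hL, hL2⟩ := hp
  have hp0 : (0 : ℝ) < p := by exact_mod_cast hp1.pos
  obtain ⟨G, hG⟩ := exists_flip (L := L) (C := (p : ℝ) ^ (2 * (l : ℤ) - 1))
    (c := (p : ℝ) ^ ((l : ℤ) - 1)) (zpow_pos hp0 _) hL2 (zpow_pos hp0 _)
  refine ⟨G, fun M => ?_⟩
  obtain ⟨j, h1, h2, h3⟩ := hG M
  exact ⟨j, h1, h2, fl_of_lt h hp1 hp2 hp3 hL h3⟩

private theorem As_ch_le (r : Finset ℕ) (n : ℕ) : |ch r n| ≤ 1 := by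
  unfold ch
  rw [Finset.abs_prod]
  refine Finset.prod_le_one (fun _ _ => abs_nonneg _) fun p _ => ?_
  rcases jacobiSym.trichotomy n p with h | h | h <;> rw [h] <;> norm_num

private theorem As_ch_sq {r Q : Finset ℕ} (hr : r ⊆ Q) {n : ℕ} (hn : n.Coprime (∏ p ∈ Q, p)) :
    ch r n ^ 2 = 1 := by
  unfold ch
  rw [← Finset.prod_pow]
  refine Finset.prod_eq_one fun p hp => ?_
  have h1 : n.Coprime p := Nat.Coprime.coprime_dvd_right (Finset.dvd_prod_of_mem _ (hr hp)) hn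
  have h2 : jacobiSym n p ^ 2 = 1 := jacobiSym.sq_one (by
    rw [Int.gcd_natCast_natCast]
    exact h1)
  exact_mod_cast h2

private theorem As_sg_sq_le (x : ℝ) : sg x ^ 2 ≤ 1 := by
  rw [sg_sq]
  split_ifs <;> norm_num

private theorem As_bias {a : ℕ → ℝ} {p₀ : ℕ} {Q' : Finset ℕ}
    (hQ : ∀ p ∈ insert p₀ Q', p.Prime ∧ p ≠ 2) (h₀ : p₀ ∉ Q') {m : Finset ℕ → ℕ} {X x : ℕ}
    (hX : 1 ≤ X) (hm : ∀ r, r ⊆ Q' → X ≤ m r) (κ : Finset ℕ → ℝ)
    (hκ : ∀ r, r ⊆ Q' → κ r = 1 ∨ κ r = -1) {d : ℕ} (hd : 0 < d)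
    (hdq : d.Coprime (∏ p ∈ insert p₀ Q', p)) {g : ℕ → ℝ} (hg : ∀ n, g (n + d) = g n)
    (hg1 : ∀ n, |g n| ≤ 1) :
    (∑ r ∈ Q'.powerset, κ r * ∑ n ∈ Ioc 0 (x / m r ^ 2),
      (if n.Coprime (∏ p ∈ insert p₀ Q', p) then
        g (m r ^ 2 * n) * (ch (insert p₀ r) n * sg (a n)) else 0)) ^ 2 ≤
    2 ^ Q'.card * (((x / X ^ 2 : ℕ) : ℝ) * (((x / X ^ 2 : ℕ) : ℝ) +
      2 ^ Q'.card * (d * ((∏ p ∈ insert p₀ Q', p : ℕ) : ℝ)))) := by
  classical
  obtain ⟨q, hq⟩ : ∃ q : ℕ, q = ∏ p ∈ insert p₀ Q', p := ⟨_, rfl⟩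
  obtain ⟨T, hT⟩ : ∃ T : ℕ, T = x / X ^ 2 := ⟨_, rfl⟩
  obtain ⟨v, hv⟩ : ∃ v : Finset ℕ → ℕ → ℝ, v = fun r n =>
    if n ≤ x / m r ^ 2 ∧ n.Coprime q then g (m r ^ 2 * n) * ch (insert p₀ r) n else 0 := ⟨_, rfl⟩
  rw [← hq] at hdq
  rw [← hq, ← hT]
  have hgk : ∀ k n, g (n + k * d) = g n := by
    intro k
    induction k with
    | zero => exact fun n => by rw [zero_mul, add_zero]
    | succ k ih => exact fun n => by rw [Nat.succ_mul, ← add_assoc, hg, ih]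
  have hle : ∀ r, r ⊆ Q' → x / m r ^ 2 ≤ T := fun r hr => by
    rw [hT]
    exact Nat.div_le_div_left (Nat.pow_le_pow_left (hm r hr) 2) (by positivity)
  have hS : ∀ r ∈ Q'.powerset, ∑ n ∈ Ioc 0 (x / m r ^ 2),
      (if n.Coprime q then g (m r ^ 2 * n) * (ch (insert p₀ r) n * sg (a n)) else 0) =
      ∑ n ∈ Ioc 0 T, sg (a n) * v r n := by
    intro r hr
    have hr' := Finset.mem_powerset.1 hr
    have h1 : ∑ n ∈ Ioc 0 (x / m r ^ 2),
        (if n.Coprime q then g (m r ^ 2 * n) * (ch (insert p₀ r) n * sg (a n)) else 0) =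
        ∑ n ∈ Ioc 0 (x / m r ^ 2), sg (a n) * v r n := by
      refine Finset.sum_congr rfl fun n hn => ?_
      have h2 := (Finset.mem_Ioc.1 hn).2
      rw [hv]
      dsimp only
      by_cases h3 : n.Coprime q
      · rw [if_pos h3, if_pos ⟨h2, h3⟩]
        ring
      · rw [if_neg h3, if_neg fun h4 => h3 h4.2, mul_zero]
    rw [h1]
    refine Finset.sum_subset (fun n hn => ?_) fun n _ hn => ?_
    · have h2 := Finset.mem_Ioc.1 hn
      exact Finset.mem_Ioc.2 ⟨h2.1, h2.2.trans (hle r hr')⟩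
    · rw [hv]
      dsimp only
      rw [if_neg, mul_zero]
      intro h3
      refine hn (Finset.mem_Ioc.2 ⟨?_, h3.1⟩)
      rename_i h4
      exact (Finset.mem_Ioc.1 h4).1
  have hB := bessel Q'.powerset (Ioc 0 T) v (fun n => sg (a n)) (D := T) (C := d * q)
    (Nat.cast_nonneg _) (by positivity)
    (by
      intro r hr
      have h1 : ∀ n ∈ Ioc 0 T, v r n ^ 2 ≤ 1 := by
        intro n _
        rw [hv]
        dsimp only
        split_ifs
        · have h2 : |g (m r ^ 2 * n) * ch (insert p₀ r) n| ≤ 1 := by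
            rw [abs_mul]
            exact mul_le_one₀ (hg1 _) (abs_nonneg _) (As_ch_le _ _)
          rw [abs_le] at h2
          nlinarith
        · norm_num
      refine (Finset.sum_le_sum h1).trans ?_
      rw [Finset.sum_const, Nat.card_Ioc, nsmul_eq_mul, mul_one, Nat.sub_zero])
    (by
      intro r hr r' hr' hne
      have hr1 := Finset.mem_powerset.1 hr
      have hr2 := Finset.mem_powerset.1 hr'
      have hne' : insert p₀ r ≠ insert p₀ r' := by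
        intro h1
        refine hne ?_
        have h2 := congrArg (fun s => Finset.erase s p₀) h1
        rwa [Finset.erase_insert fun h3 => h₀ (hr1 h3),
          Finset.erase_insert fun h3 => h₀ (hr2 h3)] at h2
      have h1 := orth_per hQ (Finset.insert_subset_insert p₀ hr1)
        (Finset.insert_subset_insert p₀ hr2) hne' hd (by rw [← hq]; exact hdq)
        (g := fun n => g (m r ^ 2 * n) * g (m r' ^ 2 * n))
        (fun n => by
          beta_reduce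
          rw [mul_add, mul_add, hgk, hgk])
        (fun n => by
          beta_reduce
          rw [abs_mul]
          exact mul_le_one₀ (hg1 _) (abs_nonneg _) (hg1 _))
        (min (x / m r ^ 2) (x / m r' ^ 2))
      rw [← hq] at h1
      refine le_trans (le_of_eq ?_) h1
      congr 1
      symm
      have h4 : ∀ n ∈ Ioc 0 (min (x / m r ^ 2) (x / m r' ^ 2)),
          g (m r ^ 2 * n) * g (m r' ^ 2 * n) *
            (if n.Coprime q then ch (insert p₀ r) n * ch (insert p₀ r') n else 0) =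
          v r n * v r' n := by
        intro n hn
        have h2 := (Finset.mem_Ioc.1 hn).2
        have h5 := h2.trans (min_le_left _ _)
        have h6 := h2.trans (min_le_right _ _)
        rw [hv]
        dsimp only
        by_cases h3 : n.Coprime q
        · rw [if_pos h3, if_pos ⟨h5, h3⟩, if_pos ⟨h6, h3⟩]
          ring
        · rw [if_neg h3, if_neg fun h4 => h3 h4.2, mul_zero, zero_mul]
      rw [Finset.sum_congr rfl h4]
      refine Finset.sum_subset (fun n hn => ?_) fun n h7 hn => ?_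
      · have h2 := Finset.mem_Ioc.1 hn
        exact Finset.mem_Ioc.2 ⟨h2.1, (h2.2.trans (min_le_left _ _)).trans (hle r hr1)⟩
      · have h8 : ¬ (n ≤ x / m r ^ 2 ∧ n ≤ x / m r' ^ 2) := fun h9 =>
          hn (Finset.mem_Ioc.2 ⟨(Finset.mem_Ioc.1 h7).1, le_min h9.1 h9.2⟩)
        rw [hv]
        dsimp only
        by_cases h9 : n ≤ x / m r ^ 2
        · rw [if_neg (c := n ≤ x / m r' ^ 2 ∧ n.Coprime q) fun h10 => h8 ⟨h9, h10.1⟩, mul_zero]
        · rw [if_neg (c := n ≤ x / m r ^ 2 ∧ n.Coprime q) fun h10 => h9 h10.1, zero_mul])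
  have hs : ∑ n ∈ Ioc 0 T, sg (a n) ^ 2 ≤ T := by
    refine (Finset.sum_le_sum fun n _ => As_sg_sq_le (a n)).trans ?_
    rw [Finset.sum_const, Nat.card_Ioc, nsmul_eq_mul, mul_one, Nat.sub_zero]
  rw [Finset.sum_congr rfl fun r hr => by rw [hS r hr]]
  refine (Finset.sum_mul_sq_le_sq_mul_sq _ _ _).trans ?_
  have h1 : ∑ r ∈ Q'.powerset, κ r ^ 2 = 2 ^ Q'.card := by
    rw [Finset.sum_congr rfl (g := fun _ => (1 : ℝ)) fun r hr => by
      rcases hκ r (Finset.mem_powerset.1 hr) with h2 | h2 <;> rw [h2] <;> norm_num]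
    rw [Finset.sum_const, Finset.card_powerset, nsmul_eq_mul, mul_one]
    push_cast
    rfl
  rw [h1]
  refine mul_le_mul_of_nonneg_left ?_ (by positivity)
  refine hB.trans ?_
  rw [Finset.card_powerset]
  push_cast
  exact mul_le_mul_of_nonneg_right hs (by positivity)

private theorem As_disj {p₀ : ℕ} {Q' : Finset ℕ} (hQ : ∀ p ∈ insert p₀ Q', p.Prime)
    (h₀ : p₀ ∉ Q') {e : Finset ℕ → ℕ → ℕ}
    (he : ∀ r, r ⊆ Q' → ∀ p ∈ insert p₀ r, 1 ≤ e r p) {r r' : Finset ℕ} (hr : r ⊆ Q')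
    (hr' : r' ⊆ Q') {k k' : ℕ} (hk : k.Coprime (∏ p ∈ insert p₀ Q', p))
    (hk' : k'.Coprime (∏ p ∈ insert p₀ Q', p))
    (hkk : (∏ p ∈ insert p₀ r, p ^ e r p) ^ 2 * k =
      (∏ p ∈ insert p₀ r', p ^ e r' p) ^ 2 * k') : r = r' := by
  have key : ∀ s, s ⊆ Q' → ∀ k : ℕ, k.Coprime (∏ p ∈ insert p₀ Q', p) → ∀ p ∈ Q',
      (p ∈ s ↔ p ∣ (∏ p ∈ insert p₀ s, p ^ e s p) ^ 2 * k) := by
    intro s hs k hk p hp
    have hpp := hQ p (Finset.mem_insert_of_mem hp)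
    constructor
    · intro h
      refine Dvd.dvd.mul_right (dvd_pow ?_ two_ne_zero) _
      have h1 := he s hs p (Finset.mem_insert_of_mem h)
      exact (dvd_pow_self p (by omega)).trans
        (Finset.dvd_prod_of_mem (fun p => p ^ e s p) (Finset.mem_insert_of_mem h))
    · intro h
      rcases (hpp.dvd_mul).1 h with h1 | h1
      · have h2 := hpp.dvd_of_dvd_pow h1
        rw [Prime.dvd_finsetProd_iff hpp.prime] at h2
        obtain ⟨p', hp', h3⟩ := h2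
        have h4 := hpp.dvd_of_dvd_pow h3
        have hp'Q : p' ∈ insert p₀ Q' := Finset.insert_subset_insert p₀ hs hp'
        have h5 := (Nat.prime_dvd_prime_iff_eq hpp (hQ p' hp'Q)).1 h4
        rw [h5]
        rcases Finset.mem_insert.1 hp' with h6 | h6
        · exfalso
          rw [h5, h6] at hp
          exact h₀ hp
        · exact h6
      · exfalso
        have h2 : p ∣ ∏ p ∈ insert p₀ Q', p :=
          Finset.dvd_prod_of_mem _ (Finset.mem_insert_of_mem hp)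
        have h3 := Nat.eq_one_of_dvd_coprimes hk h1 h2
        exact hpp.one_lt.ne' h3
  ext p
  constructor
  · intro h
    have hp := hr h
    rw [key r' hr' k' hk' p hp, ← hkk]
    exact (key r hr k hk p hp).1 h
  · intro h
    have hp := hr' h
    rw [key r hr k hk p hp, hkk]
    exact (key r' hr' k' hk' p hp).1 h

theorem balanced {l N : ℕ} {χ lam : ℕ → ℂ} {a : ℕ → ℝ} (h : Hecke l N χ lam a)
    (hI : {p | Good l N χ lam p}.Infinite) {d : ℕ} (hd : 1 ≤ d) {B : Set ℕ}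
    (hBd : ∀ n, n + d ∈ B ↔ n ∈ B) (hBs : ∀ u n : ℕ, u.Coprime d → (u ^ 2 * n ∈ B ↔ n ∈ B))
    (hne : LPos {n | n ∈ B ∧ a n ≠ 0}) {ε : ℝ} (hε : 0 < ε) :
    ∃ (b : ℕ) (A : Set ℕ), 1 ≤ b ∧ A ⊆ B ∧ (∀ n, n + b ∈ A ↔ n ∈ A) ∧
      LPos {n | n ∈ A ∧ a n ≠ 0} ∧
      ∃ x₀ : ℕ, ∀ x, x₀ ≤ x → ∀ c : ℕ,
        |(cnt {n | n ∈ {n | n ∈ A ∧ n ≡ c [MOD d]} ∧ 0 < a n} x : ℝ) -
          cnt {n | n ∈ {n | n ∈ A ∧ n ≡ c [MOD d]} ∧ a n < 0} x| ≤
          ε * cnt {n | n ∈ A ∧ a n ≠ 0} x := by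
  classical
  obtain ⟨δ, hδ, X₁, hX₁'⟩ := hne
  obtain ⟨a', ha'⟩ : ∃ a' : ℕ → ℝ, a' = fun n => if n ∈ B then a n else 0 := ⟨_, rfl⟩
  have hX₁ : ∀ x : ℕ, X₁ ≤ x → δ * x ≤ cnt {n | a' n ≠ 0} x := by
    have h1 : {n | n ∈ B ∧ a n ≠ 0} = {n | a' n ≠ 0} := by
      ext n
      rw [Set.mem_setOf_eq, Set.mem_setOf_eq, ha']
      dsimp only
      by_cases h2 : n ∈ B
      · rw [if_pos h2]
        exact ⟨fun h3 => h3.2, fun h3 => ⟨h2, h3⟩⟩
      · rw [if_neg h2]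
        exact ⟨fun h3 => absurd h3.1 h2, fun h3 => absurd rfl h3⟩
    rw [← h1]
    exact hX₁'
  -- the first prime
  obtain ⟨p₀, hp₀, hp₀5⟩ := hI.exists_gt (max ⌈4 / δ⌉₊ d)
  have hp₀4 : ⌈4 / δ⌉₊ < p₀ := lt_of_le_of_lt (le_max_left _ _) hp₀5
  have hp₀d : d < p₀ := lt_of_le_of_lt (le_max_right _ _) hp₀5
  obtain ⟨G, hG⟩ := gap_fl h hp₀
  have hp₀1 : p₀.Prime := hp₀.1
  obtain ⟨D, hD⟩ : ∃ D : ℕ, D = p₀ ^ (G + 1) := ⟨_, rfl⟩
  have hD1 : 1 ≤ D := by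
    rw [hD]
    exact Nat.one_le_pow _ _ hp₀1.pos
  obtain ⟨k, hk⟩ := pow_unbounded_of_one_lt (24 * (D : ℝ) ^ 4 / (ε ^ 2 * δ ^ 2))
    (one_lt_two : (1 : ℝ) < 2)
  -- the other primes
  have hI' : ({p | Good l N χ lam p} \ Set.Iic (max p₀ ⌈4 * ((k : ℝ) + 1) / δ⌉₊)).Infinite :=
    hI.sdiff (Set.finite_Iic _)
  obtain ⟨Q', hQs, hQc⟩ := hI'.exists_subset_card_eq k
  have hQp : ∀ p ∈ Q', Good l N χ lam p := fun p hp => (hQs hp).1
  have hQg : ∀ p ∈ Q', p₀ < p ∧ 4 * ((k : ℝ) + 1) / δ ≤ p := by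
    intro p hp
    have h1 := (hQs hp).2
    rw [Set.mem_Iic, not_le, max_lt_iff] at h1
    refine ⟨h1.1, (Nat.le_ceil _).trans ?_⟩
    exact_mod_cast h1.2.le
  have h₀ : p₀ ∉ Q' := fun h1 => absurd (hQg p₀ h1).1 (lt_irrefl _)
  have h2N : 2 ∣ N := (by norm_num : 2 ∣ 4).trans h.four
  have hodd : ∀ p, Good l N χ lam p → p ≠ 2 := fun p hp h1 => hp.2.1 (h1 ▸ h2N)
  have hQ : ∀ p ∈ insert p₀ Q', p.Prime ∧ p ≠ 2 := by
    intro p hp
    rcases Finset.mem_insert.1 hp with h1 | h1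
    · rw [h1]
      exact ⟨hp₀1, hodd p₀ hp₀⟩
    · exact ⟨(hQp p h1).1, hodd p (hQp p h1)⟩
  have hsum : ∑ p ∈ insert p₀ Q', (1 : ℝ) / p ≤ δ / 2 := by
    rw [Finset.sum_insert h₀]
    have h1 : (1 : ℝ) / p₀ ≤ δ / 4 := by
      have h2 : 4 / δ ≤ p₀ := (Nat.le_ceil _).trans (by exact_mod_cast hp₀4.le)
      have h3 : (0 : ℝ) < p₀ := by exact_mod_cast hp₀1.pos
      rw [div_le_iff₀ hδ] at h2
      rw [div_le_div_iff₀ h3 (by norm_num)]
      linarith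
    have h2 : ∑ p ∈ Q', (1 : ℝ) / p ≤ δ / 4 := by
      have h3 : ∀ p ∈ Q', (1 : ℝ) / p ≤ δ / (4 * ((k : ℝ) + 1)) := by
        intro p hp
        have h4 := (hQg p hp).2
        have h5 : (0 : ℝ) < p := by exact_mod_cast (hQp p hp).1.pos
        rw [div_le_iff₀ hδ] at h4
        rw [div_le_div_iff₀ h5 (by positivity)]
        linarith
      refine (Finset.sum_le_sum h3).trans ?_
      rw [Finset.sum_const, hQc, nsmul_eq_mul, ← mul_div_assoc,
        div_le_div_iff₀ (by positivity) (by norm_num)]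
      have h6 : (0 : ℝ) ≤ k := Nat.cast_nonneg k
      nlinarith
    linarith
  obtain ⟨X, e, hX, he⟩ := sizes hp₀1 hG (fun p hp => (hQp p hp).1) h₀ (fun p hp => by
    obtain ⟨G', hG'⟩ := gap_fl h (hQp p hp)
    obtain ⟨j, h1, -, h2⟩ := hG' 0
    exact ⟨j, h1, h2⟩)
  obtain ⟨m, hm⟩ : ∃ m : Finset ℕ → ℕ, m = fun r => ∏ p ∈ insert p₀ r, p ^ e r p := ⟨_, rfl⟩
  obtain ⟨q, hq⟩ : ∃ q : ℕ, q = ∏ p ∈ insert p₀ Q', p := ⟨_, rfl⟩
  have hlaw : ∀ r, ∃ κ : ℝ, r ⊆ Q' → (κ = 1 ∨ κ = -1) ∧ ∀ n : ℕ, 1 ≤ n → n.Coprime q →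
      sg (a (m r ^ 2 * n)) = κ * ch (insert p₀ r) n * sg (a n) := by
    intro r
    by_cases hr : r ⊆ Q'
    · obtain ⟨κ, h1, h2⟩ := fl_prod (a := a) (r := insert p₀ r) (e := e r)
        (fun p hp => (hQ p (Finset.insert_subset_insert p₀ hr hp)).1)
        (fun p hp => ((he r hr).1 p hp).2)
      refine ⟨κ, fun _ => ⟨h1, fun n hn hnq => ?_⟩⟩
      rw [hm]
      refine h2 n hn fun p hp h3 => ?_
      have h4 : p ∣ q := by
        rw [hq]
        exact Finset.dvd_prod_of_mem _ (Finset.insert_subset_insert p₀ hr hp)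
      exact (hQ p (Finset.insert_subset_insert p₀ hr hp)).1.one_lt.ne'
        (Nat.eq_one_of_dvd_coprimes hnq h3 h4)
    · exact ⟨1, fun h1 => absurd h1 hr⟩
  choose κ hκ using hlaw
  have hmX : ∀ r, r ⊆ Q' → X ≤ m r ∧ m r ≤ X * D := by
    intro r hr
    rw [hm, hD]
    exact (he r hr).2
  have hm1 : ∀ r ∈ Q'.powerset, 1 ≤ m r := fun r hr =>
    hX.trans (hmX r (Finset.mem_powerset.1 hr)).1
  have hq2 : 2 ≤ q := by
    rw [hq]
    refine hp₀1.two_le.trans (Nat.le_of_dvd ?_ (Finset.dvd_prod_of_mem _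
      (Finset.mem_insert_self p₀ Q')))
    exact Finset.prod_pos fun p hp => (hQ p hp).1.pos
  have hdis : ∀ r ∈ Q'.powerset, ∀ r' ∈ Q'.powerset, ∀ k k' : ℕ, k.Coprime q → k'.Coprime q →
      m r ^ 2 * k = m r' ^ 2 * k' → r = r' := by
    intro r hr r' hr' k k' h1 h2 h3
    rw [hq] at h1 h2
    rw [hm] at h3
    exact As_disj (fun p hp => (hQ p hp).1) h₀ (fun s hs p hp => ((he s hs).1 p hp).1)
      (Finset.mem_powerset.1 hr) (Finset.mem_powerset.1 hr') h1 h2 h3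
  obtain ⟨b, hb1, hb2⟩ := per_Au Q'.powerset hm1 hq2
  have hdq : d.Coprime q := by
    rw [hq]
    refine Nat.Coprime.prod_right fun p hp => ?_
    have h1 : d < p := by
      rcases Finset.mem_insert.1 hp with h2 | h2
      · rw [h2]
        exact hp₀d
      · exact hp₀d.trans (hQg p h2).1
    exact ((hQ p hp).1.coprime_iff_not_dvd.2 (Nat.not_dvd_of_pos_of_lt hd h1)).symm
  have hmd : ∀ r, r ⊆ Q' → (m r).Coprime d := by
    intro r hr
    rw [hm]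
    refine Nat.Coprime.prod_left fun p hp => Nat.Coprime.pow_left _ ?_
    have h1 : p ∣ q := by
      rw [hq]
      exact Finset.dvd_prod_of_mem _ (Finset.insert_subset_insert p₀ hr hp)
    exact (Nat.Coprime.coprime_dvd_right h1 hdq).symm
  have hbias : ∀ x c : ℕ,
      (cnt {n | n ∈ {n | n ∈ Au Q'.powerset m q ∩ B ∧ n ≡ c [MOD d]} ∧ 0 < a n} x : ℝ) -
      cnt {n | n ∈ {n | n ∈ Au Q'.powerset m q ∩ B ∧ n ≡ c [MOD d]} ∧ a n < 0} x =
      ∑ r ∈ Q'.powerset, κ r * ∑ n ∈ Ioc 0 (x / m r ^ 2),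
        (if n.Coprime q then
          (if m r ^ 2 * n ∈ B ∧ m r ^ 2 * n ≡ c [MOD d] then (1 : ℝ) else 0) *
          (ch (insert p₀ r) n * sg (a n)) else 0) := by
    intro x c
    rw [(cnt_sg {n | n ∈ Au Q'.powerset m q ∩ B ∧ n ≡ c [MOD d]} a x).1]
    have h1 := sum_Au Q'.powerset hm1 hdis
      (fun n => (if n ∈ B ∧ n ≡ c [MOD d] then (1 : ℝ) else 0) * sg (a n)) x
    beta_reduce at h1
    refine Eq.trans ?_ (h1.trans ?_)
    · refine Finset.sum_congr rfl fun n _ => ?_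
      by_cases h2 : n ∈ Au Q'.powerset m q
      · by_cases h3 : n ∈ B ∧ n ≡ c [MOD d]
        · rw [if_pos (show n ∈ {n | n ∈ Au Q'.powerset m q ∩ B ∧ n ≡ c [MOD d]} from
            ⟨⟨h2, h3.1⟩, h3.2⟩), if_pos h2, if_pos h3, one_mul]
        · rw [if_neg (show n ∉ {n | n ∈ Au Q'.powerset m q ∩ B ∧ n ≡ c [MOD d]} from
            fun h4 => h3 ⟨h4.1.2, h4.2⟩), if_pos h2, if_neg h3, zero_mul]
      · rw [if_neg (show n ∉ {n | n ∈ Au Q'.powerset m q ∩ B ∧ n ≡ c [MOD d]} from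
          fun h4 => h2 h4.1.1), if_neg h2]
    · refine Finset.sum_congr rfl fun r hr => ?_
      rw [Finset.mul_sum]
      refine Finset.sum_congr rfl fun n hn => ?_
      by_cases h2 : n.Coprime q
      · rw [if_pos h2, if_pos h2,
          (hκ r (Finset.mem_powerset.1 hr)).2 n (Finset.mem_Ioc.1 hn).1 h2]
        ring
      · rw [if_neg h2, if_neg h2, mul_zero]
  have hnz : ∀ x : ℕ, (cnt {n | n ∈ Au Q'.powerset m q ∩ B ∧ a n ≠ 0} x : ℝ) =
      ∑ r ∈ Q'.powerset, ∑ n ∈ Ioc 0 (x / m r ^ 2),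
        (if n.Coprime q then sg (a' n) ^ 2 else 0) := by
    intro x
    rw [(cnt_sg (Au Q'.powerset m q ∩ B) a x).2]
    have h1 := sum_Au Q'.powerset hm1 hdis (fun n => if n ∈ B then sg (a n) ^ 2 else 0) x
    beta_reduce at h1
    refine Eq.trans ?_ (h1.trans ?_)
    · refine Finset.sum_congr rfl fun n _ => ?_
      by_cases h2 : n ∈ Au Q'.powerset m q
      · by_cases h3 : n ∈ B
        · rw [if_pos (show n ∈ Au Q'.powerset m q ∩ B from ⟨h2, h3⟩), if_pos h2, if_pos h3]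
        · rw [if_neg (show n ∉ Au Q'.powerset m q ∩ B from fun h4 => h3 h4.2), if_pos h2,
            if_neg h3]
      · rw [if_neg (show n ∉ Au Q'.powerset m q ∩ B from fun h4 => h2 h4.1), if_neg h2]
    · refine Finset.sum_congr rfl fun r hr => Finset.sum_congr rfl fun n hn => ?_
      have hr' := Finset.mem_powerset.1 hr
      by_cases h2 : n.Coprime q
      · have h3 : ch (insert p₀ r) n ^ 2 = 1 :=
          As_ch_sq (Finset.insert_subset_insert p₀ hr') (hq ▸ h2)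
        have h4 : κ r ^ 2 = 1 := by
          rcases (hκ r hr').1 with h5 | h5 <;> rw [h5] <;> norm_num
        have h5 : m r ^ 2 * n ∈ B ↔ n ∈ B := hBs (m r) n (hmd r hr')
        rw [if_pos h2, if_pos h2, ha']
        dsimp only
        by_cases h6 : n ∈ B
        · rw [if_pos (h5.2 h6), if_pos h6, (hκ r hr').2 n (Finset.mem_Ioc.1 hn).1 h2, mul_pow,
            mul_pow, h3, h4, one_mul, one_mul]
        · rw [if_neg fun h7 => h6 (h5.1 h7), if_neg h6, sg_zero]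
          norm_num
      · rw [if_neg h2, if_neg h2]
  have hlow : ∀ x : ℕ, X₁ ≤ x / (X * D) ^ 2 →
      2 ^ k * (δ / 2 * ((x / (X * D) ^ 2 : ℕ) : ℝ)) ≤
        (cnt {n | n ∈ Au Q'.powerset m q ∩ B ∧ a n ≠ 0} x : ℝ) := by
    intro x hx
    rw [hnz x]
    have h1 : ∀ r ∈ Q'.powerset, δ / 2 * ((x / (X * D) ^ 2 : ℕ) : ℝ) ≤
        ∑ n ∈ Ioc 0 (x / m r ^ 2), (if n.Coprime q then sg (a' n) ^ 2 else 0) := by
      intro r hr
      have hr' := Finset.mem_powerset.1 hr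
      have h2 : x / (X * D) ^ 2 ≤ x / m r ^ 2 :=
        Nat.div_le_div_left (Nat.pow_le_pow_left (hmX r hr').2 2) (by
          have := hm1 r hr
          positivity)
      have h3 := cop_lower hX₁ (fun p hp => (hQ p hp).1) hsum (x / m r ^ 2) (hx.trans h2)
      rw [← hq] at h3
      refine le_trans ?_ h3
      refine mul_le_mul_of_nonneg_left ?_ (by positivity)
      exact_mod_cast h2
    have h4 := Finset.sum_le_sum h1
    rw [Finset.sum_const, Finset.card_powerset, hQc, nsmul_eq_mul] at h4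
    push_cast at h4 ⊢
    exact h4
  have hXD : 0 < (X * D) ^ 2 := pow_pos (Nat.mul_pos hX hD1) 2
  have hTU : ∀ x : ℕ, 1 ≤ x / (X * D) ^ 2 →
      ((x / X ^ 2 : ℕ) : ℝ) ≤ 2 * (D : ℝ) ^ 2 * ((x / (X * D) ^ 2 : ℕ) : ℝ) := by
    intro x hx
    have h1 : x / (X * D) ^ 2 = x / X ^ 2 / D ^ 2 := by
      rw [Nat.div_div_eq_div_mul, mul_pow]
    rw [h1] at hx ⊢
    have h2 : x / X ^ 2 < D ^ 2 * (x / X ^ 2 / D ^ 2 + 1) := by
      have h3 := Nat.div_add_mod (x / X ^ 2) (D ^ 2)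
      have h4 := Nat.mod_lt (x / X ^ 2) (show D ^ 2 > 0 by positivity)
      nlinarith
    have h3 : D ^ 2 * (x / X ^ 2 / D ^ 2 + 1) ≤ 2 * D ^ 2 * (x / X ^ 2 / D ^ 2) := by
      nlinarith [Nat.zero_le (D ^ 2)]
    exact_mod_cast (h2.le.trans h3)
  have hper : ∀ n, n + b * d ∈ Au Q'.powerset m q ∩ B ↔ n ∈ Au Q'.powerset m q ∩ B := by
    have h1 : ∀ k n, n + b * k ∈ Au Q'.powerset m q ↔ n ∈ Au Q'.powerset m q := by
      intro k
      induction k with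
      | zero => exact fun n => by rw [Nat.mul_zero, Nat.add_zero]
      | succ k ih => exact fun n => by rw [Nat.mul_succ, ← Nat.add_assoc, hb2, ih]
    have h2 : ∀ k n, n + k * d ∈ B ↔ n ∈ B := by
      intro k
      induction k with
      | zero => exact fun n => by rw [Nat.zero_mul, Nat.add_zero]
      | succ k ih => exact fun n => by rw [Nat.succ_mul, ← Nat.add_assoc, hBd, ih]
    exact fun n => and_congr (h1 d n) (h2 b n)
  refine ⟨b * d, Au Q'.powerset m q ∩ B, Nat.mul_pos hb1 hd, Set.inter_subset_right, hper,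
    ?_, ?_⟩
  · -- positive lower density
    refine ⟨δ / (4 * (X * D) ^ 2), by positivity, (X * D) ^ 2 * (X₁ + 1), fun x hx => ?_⟩
    have hU : X₁ + 1 ≤ x / (X * D) ^ 2 := by
      rw [Nat.le_div_iff_mul_le hXD, mul_comm]
      exact hx
    have h1 := hlow x (by omega)
    refine le_trans ?_ h1
    have h2 : x < (X * D) ^ 2 * (x / (X * D) ^ 2 + 1) := by
      have h3 := Nat.div_add_mod x ((X * D) ^ 2)
      have h4 := Nat.mod_lt x hXD
      nlinarith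
    have h3 : (x : ℝ) ≤ (X * D) ^ 2 * (((x / (X * D) ^ 2 : ℕ) : ℝ) + 1) := by exact_mod_cast h2.le
    have h4 : (1 : ℝ) ≤ ((x / (X * D) ^ 2 : ℕ) : ℝ) := by exact_mod_cast (by omega : 1 ≤ _)
    have h5 : (1 : ℝ) ≤ 2 ^ k := one_le_pow₀ (by norm_num)
    have h6 : (0 : ℝ) < ((X : ℝ) * D) ^ 2 := by exact_mod_cast hXD
    generalize ((x / (X * D) ^ 2 : ℕ) : ℝ) = U at *
    have h7 : δ / (4 * ((X : ℝ) * D) ^ 2) * x ≤ δ / 2 * U := by
      rw [div_mul_eq_mul_div, div_le_iff₀ (by positivity)]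
      have h8 : (x : ℝ) ≤ 2 * ((X : ℝ) * D) ^ 2 * U := by nlinarith
      nlinarith
    have h8 : δ / 2 * U ≤ 2 ^ k * (δ / 2 * U) := by
      have h9 : 0 ≤ δ / 2 * U := by positivity
      nlinarith
    exact h7.trans h8
  · refine ⟨(X * D) ^ 2 * (X₁ + 2 ^ k * (d * q) + 1), fun x hx c => ?_⟩
    have hU : X₁ + 2 ^ k * (d * q) + 1 ≤ x / (X * D) ^ 2 := by
      rw [Nat.le_div_iff_mul_le hXD, mul_comm]
      exact hx
    have h1 := hlow x (by omega)
    have h2 := hTU x (by omega)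
    have h3 := As_bias (a := a) (x := x) hQ h₀ hX (fun r hr => (hmX r hr).1) κ
      (fun r hr => (hκ r hr).1) hd (by rw [← hq]; exact hdq)
      (g := fun n => if n ∈ B ∧ n ≡ c [MOD d] then (1 : ℝ) else 0)
      (fun n => by
        beta_reduce
        congr 1
        rw [eq_iff_iff, Nat.ModEq, Nat.ModEq, Nat.add_mod_right, hBd])
      (fun n => by
        beta_reduce
        split_ifs <;> norm_num)
    beta_reduce at h3
    rw [← hq, ← hbias x c, hQc] at h3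
    have h4 : (2 : ℝ) ^ k * (d * q) ≤ ((x / (X * D) ^ 2 : ℕ) : ℝ) := by
      exact_mod_cast (by omega : 2 ^ k * (d * q) ≤ x / (X * D) ^ 2)
    have h5 : (1 : ℝ) ≤ ((x / (X * D) ^ 2 : ℕ) : ℝ) := by exact_mod_cast (by omega : 1 ≤ _)
    have hD1' : (1 : ℝ) ≤ (D : ℝ) ^ 2 := one_le_pow₀ (by exact_mod_cast hD1)
    have hT0 : (0 : ℝ) ≤ ((x / X ^ 2 : ℕ) : ℝ) := Nat.cast_nonneg _
    generalize ((x / (X * D) ^ 2 : ℕ) : ℝ) = U at *
    generalize ((x / X ^ 2 : ℕ) : ℝ) = T at *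
    refine abs_le_of_sq_le_sq (h3.trans ?_) (by positivity)
    have h6 : T * (T + 2 ^ k * (d * q)) ≤ 6 * (D : ℝ) ^ 4 * U ^ 2 := by
      have h7 : T + 2 ^ k * (d * q) ≤ 3 * (D : ℝ) ^ 2 * U := by nlinarith
      calc T * (T + 2 ^ k * (d * q)) ≤ (2 * (D : ℝ) ^ 2 * U) * (3 * (D : ℝ) ^ 2 * U) :=
            mul_le_mul h2 h7 (by positivity) (by positivity)
        _ = 6 * (D : ℝ) ^ 4 * U ^ 2 := by ring
    rw [div_lt_iff₀ (by positivity)] at hk
    calc (2 : ℝ) ^ k * (T * (T + 2 ^ k * (d * q))) ≤ 2 ^ k * (6 * (D : ℝ) ^ 4 * U ^ 2) :=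
          mul_le_mul_of_nonneg_left h6 (by positivity)
      _ = 2 ^ k * (U ^ 2 / 4) * (24 * (D : ℝ) ^ 4) := by ring
      _ ≤ 2 ^ k * (U ^ 2 / 4) * (2 ^ k * (ε ^ 2 * δ ^ 2)) :=
          mul_le_mul_of_nonneg_left hk.le (by positivity)
      _ = (ε * (2 ^ k * (δ / 2 * U))) ^ 2 := by ring
      _ ≤ _ := by
          refine pow_le_pow_left₀ (by positivity) ?_ 2
          exact mul_le_mul_of_nonneg_left h1 hε.le

end Pool.Agent.H.MP_656320_nt.VB
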