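import Pool.Agent.H.MP_656320_nt.Cmq

/-!
# Balanced sets of residue classes: definitions
-/

namespace Pool.Agent.H.MP_656320_nt.VB

open Finset

/-- The solution of the recursion of the coefficients at the powers of a prime, with the values `0`, `1`. -/
noncomputable def hh (L C : ℝ) : ℕ → ℝ
  | 0 => 0
  | 1 => 1
  | j + 2 => L * hh L C (j + 1) - C * hh L C j

/-- The sign. -/
noncomputable def sg (x : ℝ) : ℝ := if 0 < x then 1 else if x < 0 then -1 else 0

/-- The prime number `p` is prime to `N`, the character is real at `p` and the eigenvalue of `T(p²)`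
is real and smaller than `2 p ^ (l - 1 / 2)` in absolute value. -/
def Good (l N : ℕ) (χ lam : ℕ → ℂ) (p : ℕ) : Prop :=
  p.Prime ∧ ¬ p ∣ N ∧ χ p ^ 2 = 1 ∧ ∃ L : ℝ, lam p = L ∧ L ^ 2 < 4 * (p : ℝ) ^ (2 * (l : ℤ) - 1)

/-- The product of the symbols of `n` modulo the primes of `r`. -/
noncomputable def ch (r : Finset ℕ) (n : ℕ) : ℝ := ∏ p ∈ r, (jacobiSym n p : ℝ)

/-- The sign of `a (p ^ (2 * j) * n)` is the sign of `a n` times the symbol of `n` modulo `p`, up to a
constant sign, for all `n` prime to `p`. -/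
def Fl (a : ℕ → ℝ) (p j : ℕ) : Prop := ∃ κ : ℝ, (κ = 1 ∨ κ = -1) ∧ ∀ n : ℕ, 1 ≤ n → ¬ p ∣ n →
  sg (a (p ^ (2 * j) * n)) = κ * (jacobiSym n p : ℝ) * sg (a n)

/-- The union of the sets `m r ^ 2 * n`, `n` prime to `q`. -/
def Au {ι : Type} (R : Finset ι) (m : ι → ℕ) (q : ℕ) : Set ℕ :=
  {n | ∃ r ∈ R, ∃ k : ℕ, k.Coprime q ∧ n = m r ^ 2 * k}

theorem sg_mul (x y : ℝ) : sg (x * y) = sg x * sg y := by
  unfold sg
  rcases lt_trichotomy x 0 with hx | hx | hx <;> rcases lt_trichotomy y 0 with hy | hy | hy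
  · rw [if_pos (mul_pos_of_neg_of_neg hx hy), if_neg hx.not_gt, if_pos hx, if_neg hy.not_gt,
      if_pos hy]
    norm_num
  · rw [hy]
    simp
  · rw [if_neg (mul_neg_of_neg_of_pos hx hy).not_gt, if_pos (mul_neg_of_neg_of_pos hx hy),
      if_neg hx.not_gt, if_pos hx, if_pos hy]
    norm_num
  · rw [hx]
    simp
  · rw [hx]
    simp
  · rw [hx]
    simp
  · rw [if_neg (mul_neg_of_pos_of_neg hx hy).not_gt, if_pos (mul_neg_of_pos_of_neg hx hy),
      if_pos hx, if_neg hy.not_gt, if_pos hy]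
    norm_num
  · rw [hy]
    simp
  · rw [if_pos (mul_pos hx hy), if_pos hx, if_pos hy]
    norm_num

theorem sg_zero : sg 0 = 0 := by simp [sg]

theorem sg_pos {x : ℝ} (h : 0 < x) : sg x = 1 := if_pos h

theorem sg_neg {x : ℝ} (h : x < 0) : sg x = -1 := by
  unfold sg
  rw [if_neg h.not_gt, if_pos h]

theorem sg_sq (x : ℝ) : sg x ^ 2 = if x = 0 then 0 else 1 := by
  rcases lt_trichotomy x 0 with hx | hx | hx
  · rw [sg_neg hx, if_neg hx.ne]
    norm_num
  · rw [hx, sg_zero, if_pos rfl]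
    norm_num
  · rw [sg_pos hx, if_neg hx.ne']
    norm_num

theorem abs_sg_le (x : ℝ) : |sg x| ≤ 1 := by
  rcases lt_trichotomy x 0 with hx | hx | hx
  · rw [sg_neg hx]
    norm_num
  · rw [hx, sg_zero]
    norm_num
  · rw [sg_pos hx]
    norm_num

end Pool.Agent.H.MP_656320_nt.VB
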