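import Pool.Agent.H.MP_656320_nt.VB.Def

/-!
# Multiples close to integers occur in all long intervals
-/

namespace Pool.Agent.H.MP_656320_nt.VB

theorem exists_gap (ξ : ℝ) {K : ℕ} (hK : 0 < K) : ∃ G : ℕ, ∀ M : ℕ, ∃ k : ℕ, M < k ∧ k ≤ M + G ∧
    ∃ z : ℤ, |(k : ℝ) * ξ - z| < 1 / K := by
  classical
  have hK' : (0 : ℝ) < K := by exact_mod_cast hK
  obtain ⟨g, hg⟩ : ∃ g : ℕ → ℕ, ∀ m : ℕ, g m = ⌊(K : ℝ) * Int.fract ((m : ℝ) * ξ)⌋₊ :=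
    ⟨_, fun _ => rfl⟩
  have hnn : ∀ m : ℕ, 0 ≤ (K : ℝ) * Int.fract ((m : ℝ) * ξ) := fun m =>
    mul_nonneg hK'.le (Int.fract_nonneg _)
  have hgK : ∀ m, g m < K := by
    intro m
    rw [hg, Nat.floor_lt (hnn m)]
    have h1 := Int.fract_lt_one ((m : ℝ) * ξ)
    nlinarith
  obtain ⟨F, hF⟩ : ∃ F : ℕ → ℕ, ∀ v, (∃ m, g m = v) → g (F v) = v :=
    ⟨fun v => if h : ∃ m, g m = v then h.choose else 0, fun v h => by
      beta_reduce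
      rw [dif_pos h]
      exact h.choose_spec⟩
  refine ⟨(Finset.range K).sup F + 1, fun M => ?_⟩
  obtain ⟨m', hm'⟩ : ∃ m' : ℕ, m' = M + ((Finset.range K).sup F + 1) := ⟨_, rfl⟩
  have h1 : g (F (g m')) = g m' := hF _ ⟨m', rfl⟩
  have h2 : F (g m') ≤ (Finset.range K).sup F :=
    Finset.le_sup (f := F) (Finset.mem_range.2 (hgK m'))
  obtain ⟨m, hm⟩ : ∃ m : ℕ, m = F (g m') := ⟨_, rfl⟩
  rw [← hm] at h1 h2
  refine ⟨m' - m, by omega, by omega, ⌊(m' : ℝ) * ξ⌋ - ⌊(m : ℝ) * ξ⌋, ?_⟩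
  have h3 : m ≤ m' := by omega
  rw [Nat.cast_sub h3, Int.cast_sub]
  have e : ((m' : ℝ) - m) * ξ - ((⌊(m' : ℝ) * ξ⌋ : ℝ) - ⌊(m : ℝ) * ξ⌋) =
      Int.fract ((m' : ℝ) * ξ) - Int.fract ((m : ℝ) * ξ) := by
    unfold Int.fract
    ring
  rw [e]
  have f1 := Nat.floor_le (hnn m)
  have f2 := Nat.lt_floor_add_one ((K : ℝ) * Int.fract ((m : ℝ) * ξ))
  have f3 := Nat.floor_le (hnn m')
  have f4 := Nat.lt_floor_add_one ((K : ℝ) * Int.fract ((m' : ℝ) * ξ))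
  rw [← hg] at f1 f2 f3 f4
  rw [h1] at f1 f2
  rw [abs_lt, lt_div_iff₀ hK', neg_lt, lt_div_iff₀ hK']
  constructor <;> linarith

end Pool.Agent.H.MP_656320_nt.VB
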