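import Pool.Agent.H.MP_656320_nt.VB.Ga

/-!
# Exponents where the recursion is small
-/

namespace Pool.Agent.H.MP_656320_nt.VB

private theorem Gb_form {L C s θ : ℝ} (hs : s ^ 2 = C) (hL : L = 2 * s * Real.cos θ) (j : ℕ) :
    hh L C j * Real.sin θ * s = s ^ j * Real.sin (j * θ) ∧
      hh L C (j + 1) * Real.sin θ * s = s ^ (j + 1) * Real.sin (((j : ℝ) + 1) * θ) := by
  induction j with
  | zero =>
    refine ⟨?_, ?_⟩
    · show (0 : ℝ) * Real.sin θ * s = s ^ 0 * Real.sin (((0 : ℕ) : ℝ) * θ)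
      rw [Nat.cast_zero, zero_mul, zero_mul, zero_mul, Real.sin_zero, mul_zero]
    · show (1 : ℝ) * Real.sin θ * s = s ^ (0 + 1) * Real.sin ((((0 : ℕ) : ℝ) + 1) * θ)
      rw [Nat.cast_zero, zero_add, zero_add, one_mul, one_mul, pow_one, mul_comm]
  | succ j ih =>
    refine ⟨?_, ?_⟩
    · rw [Nat.cast_succ]
      exact ih.2
    · have h1 : hh L C (j + 1 + 1) = L * hh L C (j + 1) - C * hh L C j := rfl
      have h2 : Real.sin (((j : ℝ) + 1 + 1) * θ) =
          2 * Real.cos θ * Real.sin (((j : ℝ) + 1) * θ) - Real.sin (j * θ) := by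
        have e1 : ((j : ℝ) + 1 + 1) * θ = ((j : ℝ) + 1) * θ + θ := by ring
        have e2 : (j : ℝ) * θ = ((j : ℝ) + 1) * θ - θ := by ring
        rw [e1, e2, Real.sin_add, Real.sin_sub]
        ring
      rw [Nat.cast_succ, h1, h2]
      have h3 := ih.1
      have h4 := ih.2
      calc (L * hh L C (j + 1) - C * hh L C j) * Real.sin θ * s
          = L * (hh L C (j + 1) * Real.sin θ * s) - C * (hh L C j * Real.sin θ * s) := by ring
        _ = L * (s ^ (j + 1) * Real.sin (((j : ℝ) + 1) * θ)) - C * (s ^ j * Real.sin (j * θ)) := by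
            rw [h3, h4]
        _ = s ^ (j + 1 + 1) * (2 * Real.cos θ * Real.sin (((j : ℝ) + 1) * θ) -
              Real.sin (j * θ)) := by
            rw [hL, ← hs]
            ring

theorem exists_flip {L C c : ℝ} (hC : 0 < C) (hL : L ^ 2 < 4 * C) (hc : 0 < c) :
    ∃ G : ℕ, ∀ M : ℕ, ∃ j : ℕ, M < j ∧ j ≤ M + G ∧ |hh L C (j + 1)| < c * |hh L C j| := by
  obtain ⟨s, hs⟩ : ∃ s : ℝ, s = Real.sqrt C := ⟨_, rfl⟩
  have hs0 : 0 < s := by
    rw [hs]
    exact Real.sqrt_pos.2 hC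
  have hsC : s ^ 2 = C := by
    rw [hs]
    exact Real.sq_sqrt hC.le
  obtain ⟨co, hco⟩ : ∃ co : ℝ, co = L / (2 * s) := ⟨_, rfl⟩
  have hLco : L = 2 * s * co := by
    rw [hco]
    field_simp
  have hco2 : co ^ 2 < 1 := by
    have h1 : 4 * s ^ 2 * co ^ 2 < 4 * s ^ 2 * 1 := by
      have h2 : L ^ 2 = 4 * s ^ 2 * co ^ 2 := by
        rw [hLco]
        ring
      rw [← h2, mul_one, hsC]
      exact hL
    exact lt_of_mul_lt_mul_left h1 (by positivity)
  obtain ⟨θ, hθ⟩ : ∃ θ : ℝ, θ = Real.arccos co := ⟨_, rfl⟩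
  have hco1 : -1 ≤ co := by nlinarith
  have hco1' : co ≤ 1 := by nlinarith
  have hcos : Real.cos θ = co := by
    rw [hθ]
    exact Real.cos_arccos hco1 hco1'
  have hsin : 0 < Real.sin θ := by
    rw [hθ, Real.sin_arccos]
    exact Real.sqrt_pos.2 (by linarith)
  have hLθ : L = 2 * s * Real.cos θ := by
    rw [hcos]
    exact hLco
  obtain ⟨K, hK⟩ := exists_nat_gt (Real.pi * (s + 2 * c) / (c * Real.sin θ))
  have hcs : 0 < c * Real.sin θ := mul_pos hc hsin
  have hK0 : (0 : ℝ) < K := by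
    refine lt_of_le_of_lt ?_ hK
    have := Real.pi_pos
    positivity
  have hKn : 0 < K := by exact_mod_cast hK0
  rw [div_lt_iff₀ hcs] at hK
  obtain ⟨d, hd⟩ : ∃ d : ℝ, d = Real.pi / K := ⟨_, rfl⟩
  have hd0 : 0 < d := by
    rw [hd]
    exact div_pos Real.pi_pos hK0
  have hdK : d * K = Real.pi := by
    rw [hd]
    exact div_mul_cancel₀ _ hK0.ne'
  have hdlt : d * (s + 2 * c) < c * Real.sin θ := by
    have h1 : K * (d * (s + 2 * c)) < K * (c * Real.sin θ) := by
      calc K * (d * (s + 2 * c)) = d * K * (s + 2 * c) := by ring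
        _ = Real.pi * (s + 2 * c) := by rw [hdK]
        _ < K * (c * Real.sin θ) := hK
    exact lt_of_mul_lt_mul_left h1 hK0.le
  obtain ⟨G, hG⟩ := exists_gap (θ / Real.pi) hKn
  refine ⟨G, fun M => ?_⟩
  obtain ⟨k, hk1, hk2, z, hz⟩ := hG (M + 1)
  obtain ⟨j, rfl⟩ : ∃ j, k = j + 1 := ⟨k - 1, by omega⟩
  refine ⟨j, by omega, by omega, ?_⟩
  have hpi := Real.pi_pos
  have hm : |((j + 1 : ℕ) : ℝ) * θ - z * Real.pi| < d := by
    have h1 : ((j + 1 : ℕ) : ℝ) * θ - z * Real.pi =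
        Real.pi * (((j + 1 : ℕ) : ℝ) * (θ / Real.pi) - z) := by
      field_simp
    have h2 : d = Real.pi * (1 / K) := by
      rw [hd]
      ring
    rw [h1, abs_mul, abs_of_pos hpi, h2]
    exact mul_lt_mul_of_pos_left hz hpi
  rw [Nat.cast_succ] at hm
  obtain ⟨x, hx⟩ : ∃ x : ℝ, x = ((j : ℝ) + 1) * θ := ⟨_, rfl⟩
  rw [← hx] at hm
  have hsx : |Real.sin x| < d := by
    have h1 : |Real.sin (x - z * Real.pi)| = |Real.sin x| := by
      rw [Real.sin_sub_int_mul_pi, abs_mul, abs_zpow, abs_neg, abs_one, one_zpow, one_mul]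
    rw [← h1]
    exact lt_of_le_of_lt Real.abs_sin_le_abs hm
  have hcx : 1 - |Real.sin x| ≤ |Real.cos x| := by
    have h1 : |Real.sin x| ≤ 1 := Real.abs_sin_le_one x
    have h2 : (1 - |Real.sin x|) ^ 2 ≤ |Real.cos x| ^ 2 := by
      rw [sq_abs, Real.cos_sq', ← sq_abs (Real.sin x)]
      nlinarith [abs_nonneg (Real.sin x)]
    exact le_of_sq_le_sq h2 (abs_nonneg _)
  have hsj : Real.sin θ - 2 * d ≤ |Real.sin (j * θ)| := by
    have e1 : (j : ℝ) * θ = x - θ := by
      rw [hx]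
      ring
    rw [e1, Real.sin_sub]
    have h1 : |Real.cos x * Real.sin θ| - |Real.sin x * Real.cos θ| ≤
        |Real.sin x * Real.cos θ - Real.cos x * Real.sin θ| := by
      rw [abs_sub_comm]
      exact abs_sub_abs_le_abs_sub _ _
    have h2 : |Real.sin x * Real.cos θ| ≤ d := by
      rw [abs_mul]
      calc |Real.sin x| * |Real.cos θ| ≤ |Real.sin x| * 1 :=
            mul_le_mul_of_nonneg_left (Real.abs_cos_le_one θ) (abs_nonneg _)
        _ ≤ d := by rw [mul_one]; exact hsx.le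
    have h3 : Real.sin θ - d ≤ |Real.cos x * Real.sin θ| := by
      rw [abs_mul, abs_of_pos hsin]
      have h4 : Real.sin θ ≤ 1 := Real.sin_le_one θ
      have h5 : (1 - d) * Real.sin θ ≤ |Real.cos x| * Real.sin θ :=
        mul_le_mul_of_nonneg_right (by linarith) hsin.le
      nlinarith
    linarith
  have hmain : s * |Real.sin x| < c * |Real.sin (j * θ)| := by
    calc s * |Real.sin x| ≤ s * d := mul_le_mul_of_nonneg_left hsx.le hs0.le
      _ < c * (Real.sin θ - 2 * d) := by linarith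
      _ ≤ c * |Real.sin (j * θ)| := mul_le_mul_of_nonneg_left hsj hc.le
  obtain ⟨f1, f2⟩ := Gb_form hsC hLθ j
  rw [← hx] at f2
  have g1 : |hh L C j| * (Real.sin θ * s) = s ^ j * |Real.sin (j * θ)| := by
    have h1 := congrArg abs f1
    rw [abs_mul, abs_mul, abs_mul, abs_of_pos hsin, abs_of_pos hs0, abs_of_pos (pow_pos hs0 j)] at h1
    rw [← h1]
    ring
  have g2 : |hh L C (j + 1)| * (Real.sin θ * s) = s ^ (j + 1) * |Real.sin x| := by
    have h1 := congrArg abs f2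
    rw [abs_mul, abs_mul, abs_mul, abs_of_pos hsin, abs_of_pos hs0,
      abs_of_pos (pow_pos hs0 (j + 1))] at h1
    rw [← h1]
    ring
  have hss : 0 < Real.sin θ * s := mul_pos hsin hs0
  refine lt_of_mul_lt_mul_right ?_ hss.le
  calc |hh L C (j + 1)| * (Real.sin θ * s) = s ^ j * (s * |Real.sin x|) := by
        rw [g2]
        ring
    _ < s ^ j * (c * |Real.sin (j * θ)|) := mul_lt_mul_of_pos_left hmain (pow_pos hs0 j)
    _ = c * (s ^ j * |Real.sin (j * θ)|) := by ring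
    _ = c * |hh L C j| * (Real.sin θ * s) := by
        rw [← g1]
        ring

end Pool.Agent.H.MP_656320_nt.VB
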