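import Pool.Agent.H.MP_656320_nt.VB.Def

/-!
# The sum of a character over a period
-/

namespace Pool.Agent.H.MP_656320_nt.VB

open Finset

private lemma Oa_congr {Q r : Finset ℕ} (hr : r ⊆ Q) {n m : ℕ} (h : n ≡ m [MOD ∏ p ∈ Q, p]) :
    ch r n = ch r m := by
  unfold ch
  apply Finset.prod_congr rfl
  intro p hp
  have h1 : n ≡ m [MOD p] := h.of_dvd (Finset.dvd_prod_of_mem (fun p : ℕ => p) (hr hp))
  have h2 : jacobiSym n p = jacobiSym m p := by
    apply jacobiSym.mod_left'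
    exact_mod_cast h1
  rw [h2]

private lemma Oa_mul (r : Finset ℕ) (b n : ℕ) : ch r (b * n) = ch r b * ch r n := by
  unfold ch
  rw [← Finset.prod_mul_distrib]
  apply Finset.prod_congr rfl
  intro p _
  rw [Nat.cast_mul, jacobiSym.mul_left]
  push_cast
  ring

private lemma Oa_b {r : Finset ℕ} {b p0 : ℕ} (h0 : jacobiSym b p0 = -1)
    (h1 : ∀ p ∈ r, p ≠ p0 → jacobiSym b p = 1) : ch r b = if p0 ∈ r then -1 else 1 := by
  unfold ch
  split_ifs with h
  · rw [← Finset.mul_prod_erase _ _ h, h0, Finset.prod_eq_one]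
    · norm_num
    · intro p hp
      rw [Finset.mem_erase] at hp
      rw [h1 p hp.2 hp.1]
      norm_num
  · apply Finset.prod_eq_one
    intro p hp
    rw [h1 p hp (fun h2 => h (h2 ▸ hp))]
    norm_num

private lemma Oa_nonres {p : ℕ} (hp : p.Prime) (hp2 : p ≠ 2) : ∃ a : ℕ, jacobiSym a p = -1 := by
  have : Fact p.Prime := ⟨hp⟩
  have h1 : ringChar (ZMod p) ≠ 2 := by
    rw [ZMod.ringChar_zmod_n]
    exact hp2
  obtain ⟨x, hx⟩ := FiniteField.exists_nonsquare h1
  refine ⟨x.val, ?_⟩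
  rw [ZMod.nonsquare_iff_jacobiSym_eq_neg_one]
  rw [Int.cast_natCast, ZMod.natCast_zmod_val]
  exact hx

private lemma Oa_exb {Q : Finset ℕ} (hQ : ∀ p ∈ Q, p.Prime ∧ p ≠ 2) {p0 : ℕ} (hp0 : p0 ∈ Q) :
    ∃ b : ℕ, jacobiSym b p0 = -1 ∧ ∀ p ∈ Q, p ≠ p0 → jacobiSym b p = 1 := by
  obtain ⟨a, ha⟩ := Oa_nonres (hQ p0 hp0).1 (hQ p0 hp0).2
  have hcop : Nat.Coprime p0 (∏ p ∈ Q.erase p0, p) := by
    apply Nat.Coprime.prod_right
    intro p hp
    rw [Finset.mem_erase] at hp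
    exact (Nat.coprime_primes (hQ p0 hp0).1 (hQ p hp.2).1).mpr (Ne.symm hp.1)
  obtain ⟨b, hb1, hb2⟩ := Nat.chineseRemainder hcop a 1
  refine ⟨b, ?_, ?_⟩
  · rw [← ha]
    apply jacobiSym.mod_left'
    exact_mod_cast hb1
  · intro p hp hpp
    have h1 : b ≡ 1 [MOD p] :=
      hb2.of_dvd (Finset.dvd_prod_of_mem (fun p : ℕ => p) (Finset.mem_erase.mpr ⟨hpp, hp⟩))
    have h2 : jacobiSym b p = jacobiSym (1 : ℕ) p := by
      apply jacobiSym.mod_left'
      exact_mod_cast h1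
    rw [h2, Nat.cast_one, jacobiSym.one_left]

theorem sum_period {Q r r' : Finset ℕ} (hQ : ∀ p ∈ Q, p.Prime ∧ p ≠ 2) (hr : r ⊆ Q)
    (hr' : r' ⊆ Q) (hne : r ≠ r') : ∑ n ∈ range (∏ p ∈ Q, p),
      (if n.Coprime (∏ p ∈ Q, p) then ch r n * ch r' n else 0) = 0 := by
  classical
  -- a prime in exactly one of the two sets
  obtain ⟨p0, hp0⟩ : ∃ p0, ¬ (p0 ∈ r ↔ p0 ∈ r') := by
    by_contra hcon
    push Not at hcon
    exact hne (Finset.ext hcon)
  have hp0Q : p0 ∈ Q := by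
    by_contra h
    apply hp0
    exact ⟨fun h1 => absurd (hr h1) h, fun h1 => absurd (hr' h1) h⟩
  obtain ⟨b, hb0, hb1⟩ := Oa_exb hQ hp0Q
  have hprod : ch r b * ch r' b = -1 := by
    rw [Oa_b hb0 (fun p hp => hb1 p (hr hp)), Oa_b hb0 (fun p hp => hb1 p (hr' hp))]
    by_cases h1 : p0 ∈ r <;> by_cases h2 : p0 ∈ r'
    · exact absurd (iff_of_true h1 h2) hp0
    · rw [if_pos h1, if_neg h2]; norm_num
    · rw [if_neg h1, if_pos h2]; norm_num
    · exact absurd (iff_of_false h1 h2) hp0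
  set q := ∏ p ∈ Q, p with hq
  have hq0 : 0 < q := Finset.prod_pos fun p hp => (hQ p hp).1.pos
  have hbq : Nat.Coprime b q := by
    rw [hq]
    apply Nat.Coprime.prod_right
    intro p hp
    have h1 : jacobiSym b p ≠ 0 := by
      by_cases h : p = p0
      · rw [h, hb0]; norm_num
      · rw [hb1 p hp h]; norm_num
    have : NeZero p := ⟨(hQ p hp).1.ne_zero⟩
    have h2 : Int.gcd (b : ℤ) (p : ℤ) = 1 := by
      by_contra h
      exact h1 (jacobiSym.eq_zero_iff_not_coprime.mpr h)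
    have h3 : (Int.gcd (b : ℤ) (p : ℤ)) = Nat.gcd b p := Int.gcd_natCast_natCast b p
    rw [h3] at h2
    exact h2
  let F : ℕ → ℝ := fun n => if n.Coprime q then ch r n * ch r' n else 0
  have hFper : ∀ n m : ℕ, n ≡ m [MOD q] → F n = F m := by
    intro n m h
    have h1 : n.Coprime q ↔ m.Coprime q := by
      unfold Nat.Coprime
      rw [h.gcd_eq]
    simp only [F]
    rw [Oa_congr hr h, Oa_congr hr' h]
    by_cases h2 : m.Coprime q
    · rw [if_pos (h1.mpr h2), if_pos h2]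
    · rw [if_neg (fun h3 => h2 (h1.mp h3)), if_neg h2]
  have hFb : ∀ n : ℕ, F (b * n) = - F n := by
    intro n
    have h1 : (b * n).Coprime q ↔ n.Coprime q := by
      rw [Nat.coprime_mul_iff_left]
      exact ⟨fun h => h.2, fun h => ⟨hbq, h⟩⟩
    simp only [F]
    by_cases h2 : n.Coprime q
    · rw [if_pos (h1.mpr h2), if_pos h2, Oa_mul, Oa_mul]
      linear_combination (ch r n * ch r' n) * hprod
    · rw [if_neg (fun h3 => h2 (h1.mp h3)), if_neg h2, neg_zero]
  have hinj : Set.InjOn (fun n => (b * n) % q) (range q : Set ℕ) := by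
    intro n hn m hm h
    rw [Finset.mem_coe, Finset.mem_range] at hn hm
    have h1 : b * n ≡ b * m [MOD q] := h
    have h2 : n ≡ m [MOD q] := Nat.ModEq.cancel_left_of_coprime (hbq.symm) h1
    exact Nat.ModEq.eq_of_lt_of_lt h2 hn hm
  have himg : (range q).image (fun n => (b * n) % q) = range q := by
    apply Finset.eq_of_subset_of_card_le
    · intro x hx
      obtain ⟨n, _, rfl⟩ := Finset.mem_image.mp hx
      exact Finset.mem_range.mpr (Nat.mod_lt _ hq0)
    · rw [Finset.card_image_of_injOn hinj]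
  have hS : ∑ n ∈ range q, F n = - ∑ n ∈ range q, F n := by
    conv_lhs => rw [← himg]
    rw [Finset.sum_image hinj, ← Finset.sum_neg_distrib]
    apply Finset.sum_congr rfl
    intro n _
    rw [hFper _ (b * n) (Nat.mod_modEq _ _), hFb]
  have : ∑ n ∈ range q, F n = 0 := by linarith
  exact this

end Pool.Agent.H.MP_656320_nt.VB
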