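import Pool.Agent.H.MP_656320_nt.VB.Sm

/-!
# The sign law with one symbol
-/

namespace Pool.Agent.H.MP_656320_nt.VB

open Finset

private lemma Va_ch (r : Finset ℕ) (hr : ∀ p ∈ r, p.Prime) (n : ℕ) :
    ch r n = (jacobiSym n (∏ p ∈ r, p) : ℝ) := by
  classical
  induction r using Finset.induction_on with
  | empty => simp [ch]
  | insert p r hpr ih =>
    have h1 : NeZero p := ⟨(hr p (Finset.mem_insert_self p r)).ne_zero⟩
    have h2 : NeZero (∏ q ∈ r, q) :=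
      ⟨Finset.prod_ne_zero_iff.mpr fun q hq => (hr q (Finset.mem_insert_of_mem hq)).ne_zero⟩
    have h3 := ih fun q hq => hr q (Finset.mem_insert_of_mem hq)
    unfold ch at h3 ⊢
    rw [Finset.prod_insert hpr, Finset.prod_insert hpr, jacobiSym.mul_right, h3]
    push_cast
    ring

/-- The sign law with one symbol. -/
theorem law {a : ℕ → ℝ} {r : Finset ℕ} {e : ℕ → ℕ} (hr : ∀ p ∈ r, p.Prime)
    (hf : ∀ p ∈ r, Fl a p (e p)) : ∃ κ : ℝ, (κ = 1 ∨ κ = -1) ∧ ∀ n : ℕ, 1 ≤ n →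
      n.Coprime (∏ p ∈ r, p) → sg (a ((∏ p ∈ r, p ^ e p) ^ 2 * n)) =
        κ * (jacobiSym n (∏ p ∈ r, p) : ℝ) * sg (a n) := by
  obtain ⟨κ, hκ, h1⟩ := fl_prod hr hf
  refine ⟨κ, hκ, fun n hn hc => ?_⟩
  rw [← Va_ch r hr n]
  apply h1 n hn
  intro p hp hpn
  have h2 : p ∣ ∏ q ∈ r, q := Finset.dvd_prod_of_mem (fun q : ℕ => q) hp
  have h3 : p ∣ 1 := by
    rw [← hc]
    exact Nat.dvd_gcd hpn h2
  exact (hr p hp).one_lt.ne' (Nat.dvd_one.mp h3)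

end Pool.Agent.H.MP_656320_nt.VB
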